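import Mathlib

set_option autoImplicit false

namespace Pool.Agent.Helper92.Coplanar

open Finset

/-- Two-dimensional pigeonhole on the square `[-1,1]^2`. -/
theorem pigeonhole {ι : Type*} (V : Finset ι) (α β : ι → ℝ) (m : ℕ) (hm : 1 ≤ m)
    (hα : ∀ l ∈ V, |α l| ≤ 1) (hβ : ∀ l ∈ V, |β l| ≤ 1) (hcard : (m + 1) ^ 2 < #V) :
    ∃ a ∈ V, ∃ b ∈ V, a ≠ b ∧ |α a - α b| ≤ 2 / m ∧ |β a - β b| ≤ 2 / m := by
  classical
  have hm0 : (0 : ℝ) < m := by exact_mod_cast hm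
  let cell : ℝ → ℕ := fun x => ⌊(x + 1) * m / 2⌋₊
  have hcell : ∀ x : ℝ, |x| ≤ 1 → cell x ∈ range (m + 1) := by
    intro x hx
    have h := abs_le.mp hx
    rw [mem_range]
    apply Nat.lt_succ_of_le
    apply Nat.floor_le_of_le
    have : (x + 1) ≤ 2 := by linarith [h.2]
    have h2 : (x + 1) * m ≤ 2 * m := mul_le_mul_of_nonneg_right this hm0.le
    linarith
  have hclose : ∀ x y : ℝ, |x| ≤ 1 → |y| ≤ 1 → cell x = cell y → |x - y| ≤ 2 / m := by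
    intro x y hx hy hxy
    have hx' := abs_le.mp hx
    have hy' := abs_le.mp hy
    have hx0 : 0 ≤ (x + 1) * m / 2 := by
      have : 0 ≤ x + 1 := by linarith [hx'.1]
      positivity
    have hy0 : 0 ≤ (y + 1) * m / 2 := by
      have : 0 ≤ y + 1 := by linarith [hy'.1]
      positivity
    have h1 := Nat.floor_le hx0
    have h2 := Nat.lt_floor_add_one ((x + 1) * m / 2)
    have h3 := Nat.floor_le hy0
    have h4 := Nat.lt_floor_add_one ((y + 1) * m / 2)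
    have hxy' : (⌊(x + 1) * m / 2⌋₊ : ℝ) = (⌊(y + 1) * m / 2⌋₊ : ℝ) := by
      have : ⌊(x + 1) * m / 2⌋₊ = ⌊(y + 1) * m / 2⌋₊ := hxy
      exact_mod_cast this
    rw [le_div_iff₀ hm0, ← abs_of_pos hm0, ← abs_mul, abs_le]
    constructor <;> nlinarith
  have hmaps : Set.MapsTo (fun l => (cell (α l), cell (β l))) (V : Set ι)
      ((range (m + 1) ×ˢ range (m + 1) : Finset (ℕ × ℕ)) : Set (ℕ × ℕ)) := by
    intro l hl
    simp only [Finset.coe_product, Set.mem_prod, Finset.mem_coe]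
    exact ⟨hcell _ (hα l hl), hcell _ (hβ l hl)⟩
  have hcard' : #(range (m + 1) ×ˢ range (m + 1)) < #V := by
    rw [card_product, card_range]
    calc (m + 1) * (m + 1) = (m + 1) ^ 2 := by ring
      _ < #V := hcard
  obtain ⟨a, ha, b, hb, hab, heq⟩ := exists_ne_map_eq_of_card_lt_of_maps_to hcard' hmaps
  refine ⟨a, ha, b, hb, hab, ?_, ?_⟩
  · exact hclose _ _ (hα a ha) (hα b hb) (congrArg Prod.fst heq)
  · exact hclose _ _ (hβ a ha) (hβ b hb) (congrArg Prod.snd heq)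

/-- coordinates in a maximal parallelogram -/
theorem coords_of_nonzero {ι : Type*} (V : Finset ι) (g h f₁ f₂ f₃ : ι → ℝ)
    (h1 : ∀ a ∈ V, ∀ b ∈ V, ∀ c ∈ V, f₁ c * (g a * h b - h a * g b) =
      f₁ a * (g c * h b - h c * g b) + f₁ b * (g a * h c - h a * g c))
    (h2 : ∀ a ∈ V, ∀ b ∈ V, ∀ c ∈ V, f₂ c * (g a * h b - h a * g b) =
      f₂ a * (g c * h b - h c * g b) + f₂ b * (g a * h c - h a * g c))
    (h3 : ∀ a ∈ V, ∀ b ∈ V, ∀ c ∈ V, f₃ c * (g a * h b - h a * g b) =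
      f₃ a * (g c * h b - h c * g b) + f₃ b * (g a * h c - h a * g c))
    (hne : ∃ a ∈ V, ∃ b ∈ V, g a * h b - h a * g b ≠ 0) :
    ∃ a ∈ V, ∃ b ∈ V, ∃ α β : ι → ℝ, ∀ c ∈ V, |α c| ≤ 1 ∧ |β c| ≤ 1 ∧
      f₁ c = α c * f₁ a + β c * f₁ b ∧ f₂ c = α c * f₂ a + β c * f₂ b ∧
      f₃ c = α c * f₃ a + β c * f₃ b := by
  classical
  obtain ⟨a₀, ha₀, b₀, hb₀, hne⟩ := hne
  obtain ⟨⟨a, b⟩, hab, hmax⟩ := exists_max_image (V ×ˢ V)
    (fun p : ι × ι => |g p.1 * h p.2 - h p.1 * g p.2|) ⟨(a₀, b₀), mk_mem_product ha₀ hb₀⟩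
  rw [mem_product] at hab
  obtain ⟨ha, hb⟩ := hab
  simp only at ha hb
  set M := g a * h b - h a * g b with hM
  have hMpos : 0 < |M| := by
    have := hmax (a₀, b₀) (mk_mem_product ha₀ hb₀)
    exact lt_of_lt_of_le (abs_pos.mpr hne) this
  have hM0 : M ≠ 0 := abs_pos.mp hMpos
  refine ⟨a, ha, b, hb, fun c => (g c * h b - h c * g b) / M,
    fun c => (g a * h c - h a * g c) / M, ?_⟩
  intro c hc
  refine ⟨?_, ?_, ?_, ?_, ?_⟩
  · show |(g c * h b - h c * g b) / M| ≤ 1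
    rw [abs_div, div_le_one hMpos]
    exact hmax (c, b) (mk_mem_product hc hb)
  · show |(g a * h c - h a * g c) / M| ≤ 1
    rw [abs_div, div_le_one hMpos]
    exact hmax (a, c) (mk_mem_product ha hc)
  · have := h1 a ha b hb c hc
    field_simp
    linarith
  · have := h2 a ha b hb c hc
    field_simp
    linarith
  · have := h3 a ha b hb c hc
    field_simp
    linarith

theorem coords {ι : Type*} (V : Finset ι) (f₁ f₂ f₃ : ι → ℝ) (hV : V.Nonempty)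
    (hdet : ∀ a ∈ V, ∀ b ∈ V, ∀ c ∈ V,
      f₁ a * (f₂ b * f₃ c - f₃ b * f₂ c) - f₂ a * (f₁ b * f₃ c - f₃ b * f₁ c)
        + f₃ a * (f₁ b * f₂ c - f₂ b * f₁ c) = 0) :
    ∃ a ∈ V, ∃ b ∈ V, ∃ α β : ι → ℝ, ∀ c ∈ V, |α c| ≤ 1 ∧ |β c| ≤ 1 ∧
      f₁ c = α c * f₁ a + β c * f₁ b ∧ f₂ c = α c * f₂ a + β c * f₂ b ∧
      f₃ c = α c * f₃ a + β c * f₃ b := by
  classical
  by_cases hA : ∃ a ∈ V, ∃ b ∈ V, f₁ a * f₂ b - f₂ a * f₁ b ≠ 0
  · apply coords_of_nonzero V f₁ f₂ f₁ f₂ f₃ _ _ _ hA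
    · intro a _ b _ c _; ring
    · intro a _ b _ c _; ring
    · intro a ha b hb c hc
      have := hdet a ha b hb c hc
      linear_combination this
  by_cases hB : ∃ a ∈ V, ∃ b ∈ V, f₁ a * f₃ b - f₃ a * f₁ b ≠ 0
  · apply coords_of_nonzero V f₁ f₃ f₁ f₂ f₃ _ _ _ hB
    · intro a _ b _ c _; ring
    · intro a ha b hb c hc
      have := hdet a ha b hb c hc
      linear_combination -this
    · intro a _ b _ c _; ring
  by_cases hC : ∃ a ∈ V, ∃ b ∈ V, f₂ a * f₃ b - f₃ a * f₂ b ≠ 0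
  · apply coords_of_nonzero V f₂ f₃ f₁ f₂ f₃ _ _ _ hC
    · intro a ha b hb c hc
      have := hdet a ha b hb c hc
      linear_combination this
    · intro a _ b _ c _; ring
    · intro a _ b _ c _; ring
  push Not at hA hB hC
  -- all vectors are parallel
  have gen : ∀ u : ι → ℝ, (∀ c ∈ V, ∀ a ∈ V, f₁ c * u a = u c * f₁ a) →
      (∀ c ∈ V, ∀ a ∈ V, f₂ c * u a = u c * f₂ a) →
      (∀ c ∈ V, ∀ a ∈ V, f₃ c * u a = u c * f₃ a) → (∃ a ∈ V, u a ≠ 0) →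
      ∃ a ∈ V, ∃ b ∈ V, ∃ α β : ι → ℝ, ∀ c ∈ V, |α c| ≤ 1 ∧ |β c| ≤ 1 ∧
      f₁ c = α c * f₁ a + β c * f₁ b ∧ f₂ c = α c * f₂ a + β c * f₂ b ∧
      f₃ c = α c * f₃ a + β c * f₃ b := by
    intro u hu1 hu2 hu3 ⟨a₀, ha₀, hne⟩
    obtain ⟨a, ha, hmax⟩ := exists_max_image V (fun a => |u a|) hV
    have hpos : 0 < |u a| := lt_of_lt_of_le (abs_pos.mpr hne) (hmax a₀ ha₀)
    have hne' : u a ≠ 0 := abs_pos.mp hpos
    refine ⟨a, ha, a, ha, fun c => u c / u a, fun _ => 0, ?_⟩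
    intro c hc
    refine ⟨?_, by simp, ?_, ?_, ?_⟩
    · show |u c / u a| ≤ 1
      rw [abs_div, div_le_one hpos]
      exact hmax c hc
    · have := hu1 c hc a ha
      field_simp
      linarith
    · have := hu2 c hc a ha
      field_simp
      linarith
    · have := hu3 c hc a ha
      field_simp
      linarith
  by_cases h1 : ∃ a ∈ V, f₁ a ≠ 0
  · apply gen f₁ _ _ _ h1
    · intro c _ a _; ring
    · intro c hc a ha
      have := hA c hc a ha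
      linarith
    · intro c hc a ha
      have := hB c hc a ha
      linarith
  by_cases h2 : ∃ a ∈ V, f₂ a ≠ 0
  · apply gen f₂ _ _ _ h2
    · intro c hc a ha
      have := hA c hc a ha
      linarith
    · intro c _ a _; ring
    · intro c hc a ha
      have := hC c hc a ha
      linarith
  by_cases h3 : ∃ a ∈ V, f₃ a ≠ 0
  · apply gen f₃ _ _ _ h3
    · intro c hc a ha
      have := hB c hc a ha
      linarith
    · intro c hc a ha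
      have := hC c hc a ha
      linarith
    · intro c _ a _; ring
  push Not at h1 h2 h3
  obtain ⟨a, ha⟩ := hV
  refine ⟨a, ha, a, ha, fun _ => 0, fun _ => 0, ?_⟩
  intro c hc
  simp [h1 c hc, h2 c hc, h3 c hc]

/-- Many coplanar vectors in a box: two of them are close. -/
theorem small_difference {ι : Type*} (V : Finset ι) (f₁ f₂ f₃ : ι → ℝ) (W₁ W₂ W₃ : ℝ)
    (m : ℕ) (hm : 1 ≤ m)
    (h1 : ∀ l ∈ V, |f₁ l| ≤ W₁) (h2 : ∀ l ∈ V, |f₂ l| ≤ W₂) (h3 : ∀ l ∈ V, |f₃ l| ≤ W₃)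
    (hdet : ∀ a ∈ V, ∀ b ∈ V, ∀ c ∈ V,
      f₁ a * (f₂ b * f₃ c - f₃ b * f₂ c) - f₂ a * (f₁ b * f₃ c - f₃ b * f₁ c)
        + f₃ a * (f₁ b * f₂ c - f₂ b * f₁ c) = 0)
    (hcard : (m + 1) ^ 2 < #V) :
    ∃ a ∈ V, ∃ b ∈ V, a ≠ b ∧ |f₁ a - f₁ b| ≤ 4 * W₁ / m ∧ |f₂ a - f₂ b| ≤ 4 * W₂ / m ∧
      |f₃ a - f₃ b| ≤ 4 * W₃ / m := by
  have hV : V.Nonempty := by
    rw [← card_pos]; omega
  have hm0 : (0 : ℝ) < m := by exact_mod_cast hm
  obtain ⟨a, ha, b, hb, α, β, hαβ⟩ := coords V f₁ f₂ f₃ hV hdet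
  obtain ⟨c, hc, d, hd, hcd, hα, hβ⟩ := pigeonhole V α β m hm
    (fun l hl => (hαβ l hl).1) (fun l hl => (hαβ l hl).2.1) hcard
  have main : ∀ (u : ι → ℝ) (W : ℝ), |u a| ≤ W → |u b| ≤ W →
      u c = α c * u a + β c * u b → u d = α d * u a + β d * u b →
      |u c - u d| ≤ 4 * W / m := by
    intro u W hua hub huc hud
    have : u c - u d = (α c - α d) * u a + (β c - β d) * u b := by
      rw [huc, hud]; ring
    rw [this]
    calc |(α c - α d) * u a + (β c - β d) * u b|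
        ≤ |(α c - α d) * u a| + |(β c - β d) * u b| := abs_add_le _ _
      _ = |α c - α d| * |u a| + |β c - β d| * |u b| := by rw [abs_mul, abs_mul]
      _ ≤ 2 / m * W + 2 / m * W := by
          gcongr
      _ = 4 * W / m := by ring
  refine ⟨c, hc, d, hd, hcd, ?_, ?_, ?_⟩
  · exact main f₁ W₁ (h1 a ha) (h1 b hb) (hαβ c hc).2.2.1 (hαβ d hd).2.2.1
  · exact main f₂ W₂ (h2 a ha) (h2 b hb) (hαβ c hc).2.2.2.1 (hαβ d hd).2.2.2.1
  · exact main f₃ W₃ (h3 a ha) (h3 b hb) (hαβ c hc).2.2.2.2 (hαβ d hd).2.2.2.2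

/-- Integral determinant of absolute value less than one vanishes. -/
theorem det_zero (x₁ x₂ x₃ y₁ y₂ y₃ z₁ z₂ z₃ W₁ W₂ W₃ : ℝ) (D : ℤ)
    (hD : (D : ℝ) = x₁ * (y₂ * z₃ - y₃ * z₂) - x₂ * (y₁ * z₃ - y₃ * z₁)
        + x₃ * (y₁ * z₂ - y₂ * z₁))
    (hx1 : |x₁| ≤ W₁) (hx2 : |x₂| ≤ W₂) (hx3 : |x₃| ≤ W₃)
    (hy1 : |y₁| ≤ W₁) (hy2 : |y₂| ≤ W₂) (hy3 : |y₃| ≤ W₃)
    (hz1 : |z₁| ≤ W₁) (hz2 : |z₂| ≤ W₂) (hz3 : |z₃| ≤ W₃)
    (hW : 6 * (W₁ * W₂ * W₃) < 1) :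
    x₁ * (y₂ * z₃ - y₃ * z₂) - x₂ * (y₁ * z₃ - y₃ * z₁)
        + x₃ * (y₁ * z₂ - y₂ * z₁) = 0 := by
  have hW1 : 0 ≤ W₁ := (abs_nonneg _).trans hx1
  have hW2 : 0 ≤ W₂ := (abs_nonneg _).trans hx2
  have hW3 : 0 ≤ W₃ := (abs_nonneg _).trans hx3
  have t : ∀ p q r : ℝ, |p| ≤ W₁ → |q| ≤ W₂ → |r| ≤ W₃ → |p * q * r| ≤ W₁ * W₂ * W₃ := by
    intro p q r hp hq hr
    rw [abs_mul, abs_mul]
    gcongr
  have e1 := abs_le.mp (t x₁ y₂ z₃ hx1 hy2 hz3)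
  have e2 := abs_le.mp (t x₁ z₂ y₃ hx1 hz2 hy3)
  have e3 := abs_le.mp (t y₁ x₂ z₃ hy1 hx2 hz3)
  have e4 := abs_le.mp (t z₁ x₂ y₃ hz1 hx2 hy3)
  have e5 := abs_le.mp (t y₁ z₂ x₃ hy1 hz2 hx3)
  have e6 := abs_le.mp (t z₁ y₂ x₃ hz1 hy2 hx3)
  have habs : |(D : ℝ)| < 1 := by
    rw [hD, abs_lt]
    constructor <;> nlinarith [e1.1, e1.2, e2.1, e2.2, e3.1, e3.2, e4.1, e4.2, e5.1, e5.2, e6.1, e6.2]
  have hD0 : D = 0 := by
    have : |D| < 1 := by exact_mod_cast habs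
    exact Int.abs_lt_one_iff.mp this
  rw [← hD, hD0]; simp

end Pool.Agent.Helper92.Coplanar
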