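import Mathlib
import Pool.Agent.Helper92.Coplanar

set_option autoImplicit false

namespace Pool.Agent.Helper92.Bad

open Finset

/-- `√2` is badly approximable. -/
theorem sqrt_two_bad (B C : ℤ) (hB : B ≠ 0) :
    1 / 4 ≤ |(B : ℝ)| * |(B : ℝ) * Real.sqrt 2 + C| := by
  have hs0 : (0 : ℝ) < Real.sqrt 2 := by positivity
  have hs2 : Real.sqrt 2 * Real.sqrt 2 = 2 := Real.mul_self_sqrt (by norm_num)
  have hs3 : Real.sqrt 2 < 3 / 2 := by
    rw [Real.sqrt_lt' (by norm_num)]; norm_num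
  have hB1 : (1 : ℝ) ≤ |(B : ℝ)| := by
    rw [← Int.cast_abs]
    exact_mod_cast Int.one_le_abs hB
  by_cases hx : 1 / 4 ≤ |(B : ℝ) * Real.sqrt 2 + C|
  · calc (1 : ℝ) / 4 = 1 * (1 / 4) := by ring
      _ ≤ |(B : ℝ)| * |(B : ℝ) * Real.sqrt 2 + C| := by gcongr
  push Not at hx
  have hne : C ^ 2 - 2 * B ^ 2 ≠ 0 := by
    intro h0
    have h1 : (C : ℝ) ^ 2 = 2 * (B : ℝ) ^ 2 := by
      have : C ^ 2 = 2 * B ^ 2 := by linarith
      exact_mod_cast this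
    have hB0 : (B : ℝ) ≠ 0 := by exact_mod_cast hB
    have h2 : ((|C| : ℤ) : ℝ) / ((|B| : ℤ) : ℝ) = Real.sqrt 2 := by
      symm
      rw [Real.sqrt_eq_iff_mul_self_eq (by norm_num) (by positivity)]
      rw [div_mul_div_comm, ← Int.cast_mul, ← Int.cast_mul, abs_mul_abs_self, abs_mul_abs_self]
      push_cast
      rw [eq_div_iff (by positivity)]
      nlinarith
    have := irrational_sqrt_two
    apply this
    refine ⟨((|C| : ℤ) : ℚ) / ((|B| : ℤ) : ℚ), ?_⟩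
    rw [← h2]
    push_cast
    rfl
  have h1 : (1 : ℝ) ≤ |(C : ℝ) ^ 2 - 2 * (B : ℝ) ^ 2| := by
    have := Int.one_le_abs hne
    exact_mod_cast this
  have h2 : (C : ℝ) ^ 2 - 2 * (B : ℝ) ^ 2 =
      ((B : ℝ) * Real.sqrt 2 + C) * (C - (B : ℝ) * Real.sqrt 2) := by
    linear_combination (B : ℝ) ^ 2 * hs2
  rw [h2, abs_mul] at h1
  have h3 : |(C : ℝ) - (B : ℝ) * Real.sqrt 2| ≤ 4 * |(B : ℝ)| := by
    have e : (C : ℝ) - (B : ℝ) * Real.sqrt 2 =
      ((B : ℝ) * Real.sqrt 2 + C) - 2 * ((B : ℝ) * Real.sqrt 2) := by ring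
    rw [e]
    calc |((B : ℝ) * Real.sqrt 2 + C) - 2 * ((B : ℝ) * Real.sqrt 2)|
        ≤ |(B : ℝ) * Real.sqrt 2 + C| + |2 * ((B : ℝ) * Real.sqrt 2)| := abs_sub _ _
      _ = |(B : ℝ) * Real.sqrt 2 + C| + 2 * (|(B : ℝ)| * Real.sqrt 2) := by
          rw [abs_mul, abs_mul, abs_of_pos (show (0 : ℝ) < 2 by norm_num), abs_of_pos hs0]
      _ ≤ 1 / 4 + 2 * (|(B : ℝ)| * (3 / 2)) := by gcongr
      _ ≤ 4 * |(B : ℝ)| := by linarith
  have h4 : (1 : ℝ) ≤ |(B : ℝ) * Real.sqrt 2 + C| * (4 * |(B : ℝ)|) :=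
    h1.trans (mul_le_mul_of_nonneg_left h3 (abs_nonneg _))
  linarith

/-- class of a natural number at the scale `2^32` -/
def lg (n : ℕ) : ℕ := Nat.log (2 ^ 32) n

theorem lg_le (n : ℕ) (hn : n ≠ 0) : (2 : ℝ) ^ (32 * lg n) ≤ n := by
  have h := Nat.pow_log_le_self (2 ^ 32) hn
  have h2 : ((2 ^ 32) ^ Nat.log (2 ^ 32) n : ℕ) = 2 ^ (32 * lg n) := by
    rw [← pow_mul]; rfl
  rw [h2] at h
  exact_mod_cast h

theorem lt_lg (n : ℕ) : (n : ℝ) < 2 ^ (32 * lg n + 32) := by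
  have h := Nat.lt_pow_succ_log_self (b := 2 ^ 32) (by norm_num) n
  have h2 : ((2 ^ 32) ^ (Nat.log (2 ^ 32) n + 1) : ℕ) = 2 ^ (32 * lg n + 32) := by
    rw [← pow_mul]; rfl
  rw [Nat.succ_eq_add_one, h2] at h
  exact_mod_cast h

/-- height of a line -/
def ht (A B : ℤ) : ℕ := max A.natAbs B.natAbs

noncomputable def rho2 (A B : ℤ) : ℝ := ((2 : ℝ) ^ 703)⁻¹ / (2 ^ (64 * lg (ht A B)) * A)

noncomputable def z2 (A B : ℤ) : ℝ :=
  ((2 : ℝ) ^ 70)⁻¹ * 2 ^ (30 * (lg (ht A B) - lg A.natAbs)) / (2 ^ (64 * lg (ht A B)) * A)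

theorem two_pow_le {m n : ℕ} (h : m ≤ n) : (2 : ℝ) ^ m ≤ 2 ^ n :=
  pow_le_pow_right₀ (by norm_num) h

theorem two_pow_lt {m n : ℕ} (h : m < n) : (2 : ℝ) ^ m < 2 ^ n :=
  pow_lt_pow_right₀ (by norm_num) h

theorem countTwo {ι : Type*} (i : ℕ) (t : ℝ)
    (good : ∀ A B C : ℤ, 1 ≤ A → ((2 : ℝ) ^ (32 * i))⁻¹ ≤ 2 * rho2 A B →
      rho2 A B ≤ |t - (-((B : ℝ) * Real.sqrt 2 + C) / A)|)
    (V : Finset ι) (A B C : ι → ℤ)
    (hinj : ∀ a ∈ V, ∀ b ∈ V, A a = A b → B a = B b → C a = C b → a = b)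
    (α v : ℕ) (hA : ∀ l ∈ V, 1 ≤ A l) (hα : ∀ l ∈ V, lg (A l).natAbs = α)
    (hβ : ∀ l ∈ V, lg (ht (A l) (B l)) = α + v)
    (hz : ∀ l ∈ V, ((2 : ℝ) ^ (32 * i))⁻¹ < z2 (A l) (B l))
    (hmeet : ∀ l ∈ V, ∃ y ∈ Set.Icc t (t + ((2 : ℝ) ^ (32 * i))⁻¹),
      |y - (-((B l : ℝ) * Real.sqrt 2 + C l) / A l)| < rho2 (A l) (B l)) :
    #V ≤ (2 ^ (245 + 10 * v) + 1) ^ 2 := by
  by_contra hcon
  push Not at hcon
  set h : ℝ := ((2 : ℝ) ^ (32 * i))⁻¹ with hh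
  have hpos : 0 < h := by rw [hh]; positivity
  set β := α + v with hβdef
  set m : ℕ := 2 ^ (245 + 10 * v) with hm
  have hm1 : 1 ≤ m := Nat.one_le_two_pow
  have hmR : (m : ℝ) = 2 ^ (245 + 10 * v) := by rw [hm]; push_cast; ring
  have hmpos : (0 : ℝ) < m := by exact_mod_cast hm1
  -- basic bounds
  have hA1 : ∀ l ∈ V, (2 : ℝ) ^ (32 * α) ≤ (A l : ℝ) := by
    intro l hl
    have h1 := hA l hl
    have h2 := lg_le (A l).natAbs (by omega)
    rw [hα l hl] at h2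
    have h3 : (((A l).natAbs : ℕ) : ℝ) = (A l : ℝ) := by
      rw [Nat.cast_natAbs, abs_of_pos (by omega)]
    rwa [h3] at h2
  have hA2 : ∀ l ∈ V, (A l : ℝ) ≤ 2 ^ (32 * α + 32) := by
    intro l hl
    have h1 := hA l hl
    have h2 := lt_lg (A l).natAbs
    rw [hα l hl] at h2
    have h3 : (((A l).natAbs : ℕ) : ℝ) = (A l : ℝ) := by
      rw [Nat.cast_natAbs, abs_of_pos (by omega)]
    rw [h3] at h2
    exact h2.le
  have hB2 : ∀ l ∈ V, |(B l : ℝ)| ≤ 2 ^ (32 * β + 32) := by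
    intro l hl
    have h2 := lt_lg (ht (A l) (B l))
    rw [hβ l hl] at h2
    have h3 : (B l).natAbs ≤ ht (A l) (B l) := le_max_right _ _
    have h4 : |(B l : ℝ)| = (((B l).natAbs : ℕ) : ℝ) := by
      rw [Nat.cast_natAbs, Int.cast_abs]
    rw [h4]
    have h5 : (((B l).natAbs : ℕ) : ℝ) ≤ ((ht (A l) (B l) : ℕ) : ℝ) := by exact_mod_cast h3
    exact h5.trans h2.le
  have hE1 : ∀ l ∈ V, h * (A l : ℝ) * 2 ^ (64 * β) < ((2 : ℝ) ^ 70)⁻¹ * 2 ^ (30 * v) := by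
    intro l hl
    have h1 := hz l hl
    have hApos : (0 : ℝ) < A l := by exact_mod_cast hA l hl
    have e : β - α = v := by omega
    rw [z2, hα l hl, hβ l hl, e, lt_div_iff₀ (by positivity)] at h1
    linarith
  have hF : ∀ l ∈ V, |(A l : ℝ) * t + B l * Real.sqrt 2 + C l| ≤
      2 * (((2 : ℝ) ^ 70)⁻¹ * 2 ^ (30 * v)) / 2 ^ (64 * β) := by
    intro l hl
    obtain ⟨y, hy, hyx⟩ := hmeet l hl
    have hApos : (0 : ℝ) < A l := by exact_mod_cast hA l hl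
    have h1 := hE1 l hl
    have e : (A l : ℝ) * t + B l * Real.sqrt 2 + C l =
        A l * (t - y) + A l * (y - (-((B l : ℝ) * Real.sqrt 2 + C l) / A l)) := by
      field_simp; ring
    rw [e]
    have h2 : |(A l : ℝ) * (t - y)| ≤ A l * h := by
      rw [abs_mul, abs_of_pos hApos]
      gcongr
      rw [abs_le]
      constructor <;> linarith [hy.1, hy.2]
    have h3 : |(A l : ℝ) * (y - (-((B l : ℝ) * Real.sqrt 2 + C l) / A l))| ≤
        ((2 : ℝ) ^ 703)⁻¹ / 2 ^ (64 * β) := by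
      rw [abs_mul, abs_of_pos hApos]
      have h4 : rho2 (A l) (B l) = ((2 : ℝ) ^ 703)⁻¹ / (2 ^ (64 * β) * A l) := by
        rw [rho2, hβ l hl]
      rw [h4] at hyx
      calc (A l : ℝ) * |y - (-((B l : ℝ) * Real.sqrt 2 + C l) / A l)|
          ≤ A l * (((2 : ℝ) ^ 703)⁻¹ / (2 ^ (64 * β) * A l)) := by gcongr
        _ = ((2 : ℝ) ^ 703)⁻¹ / 2 ^ (64 * β) := by field_simp
    have h5 : ((2 : ℝ) ^ 703)⁻¹ ≤ ((2 : ℝ) ^ 70)⁻¹ * 2 ^ (30 * v) := by
      have e1 : ((2 : ℝ) ^ 703)⁻¹ ≤ ((2 : ℝ) ^ 70)⁻¹ :=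
        inv_anti₀ (by positivity) (two_pow_le (by norm_num))
      have e2 : (1 : ℝ) ≤ 2 ^ (30 * v) := one_le_pow₀ (by norm_num)
      calc ((2 : ℝ) ^ 703)⁻¹ ≤ ((2 : ℝ) ^ 70)⁻¹ * 1 := by rw [mul_one]; exact e1
        _ ≤ _ := by gcongr
    calc |(A l : ℝ) * (t - y) + A l * (y - (-((B l : ℝ) * Real.sqrt 2 + C l) / A l))|
        ≤ |(A l : ℝ) * (t - y)| + |A l * (y - (-((B l : ℝ) * Real.sqrt 2 + C l) / A l))| :=
          abs_add_le _ _
      _ ≤ A l * h + ((2 : ℝ) ^ 703)⁻¹ / 2 ^ (64 * β) := add_le_add h2 h3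
      _ ≤ (((2 : ℝ) ^ 70)⁻¹ * 2 ^ (30 * v)) / 2 ^ (64 * β) +
          (((2 : ℝ) ^ 70)⁻¹ * 2 ^ (30 * v)) / 2 ^ (64 * β) := by
          apply add_le_add
          · rw [le_div_iff₀ (by positivity)]
            linarith
          · gcongr
      _ = _ := by ring
  set W₁ : ℝ := 2 ^ (32 * α + 32) with hW1
  set W₂ : ℝ := 2 ^ (32 * β + 32) with hW2
  set W₃ : ℝ := 2 * (((2 : ℝ) ^ 70)⁻¹ * 2 ^ (30 * v)) / 2 ^ (64 * β) with hW3
  have hW23 : W₂ * W₃ = 2 * 2 ^ 32 * (((2 : ℝ) ^ 70)⁻¹ * 2 ^ (30 * v)) / 2 ^ (32 * β) := by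
    rw [hW2, hW3]
    have : (2 : ℝ) ^ (64 * β) = 2 ^ (32 * β) * 2 ^ (32 * β) := by rw [← pow_add]; congr 1; ring
    rw [this, pow_add]
    field_simp
  have hvol : 6 * (W₁ * W₂ * W₃) < 1 := by
    rw [mul_assoc W₁, hW23, hW1]
    have e1 : (2 : ℝ) ^ (32 * β) = 2 ^ (32 * α) * 2 ^ (32 * v) := by
      rw [← pow_add]; congr 1; rw [hβdef]; ring
    have e2 : (2 : ℝ) ^ (32 * v) = 2 ^ (30 * v) * 2 ^ (2 * v) := by
      rw [← pow_add]; congr 1; ring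
    have e3 : (1 : ℝ) ≤ 2 ^ (2 * v) := one_le_pow₀ (by norm_num)
    rw [e1, e2, pow_add]
    have e4 : 6 * ((2 : ℝ) ^ (32 * α) * 2 ^ 32 * (2 * 2 ^ 32 * (((2 : ℝ) ^ 70)⁻¹ * 2 ^ (30 * v)) /
        (2 ^ (32 * α) * (2 ^ (30 * v) * 2 ^ (2 * v))))) =
        (12 * 2 ^ 64 / 2 ^ 70) / 2 ^ (2 * v) := by
      field_simp
      ring
    rw [e4, div_lt_one (by positivity)]
    have e5 : (12 * 2 ^ 64 / 2 ^ 70 : ℝ) < 1 := by norm_num
    linarith
  obtain ⟨a, ha, b, hb, hab, hd1, hd2, hd3⟩ := Coplanar.small_difference V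
    (fun l => (A l : ℝ)) (fun l => (B l : ℝ)) (fun l => (A l : ℝ) * t + B l * Real.sqrt 2 + C l)
    W₁ W₂ W₃ m hm1
    (fun l hl => by
      have hApos : (0 : ℝ) < A l := by exact_mod_cast hA l hl
      rw [abs_of_pos hApos]; exact hA2 l hl)
    hB2 hF
    (fun a ha b hb c hc => by
      apply Coplanar.det_zero _ _ _ _ _ _ _ _ _ W₁ W₂ W₃
        (A a * (B b * C c - C b * B c) - B a * (A b * C c - C b * A c)
          + C a * (A b * B c - B b * A c))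
      · push_cast; ring
      · have hApos : (0 : ℝ) < A a := by exact_mod_cast hA a ha
        rw [abs_of_pos hApos]; exact hA2 a ha
      · exact hB2 a ha
      · exact hF a ha
      · have hApos : (0 : ℝ) < A b := by exact_mod_cast hA b hb
        rw [abs_of_pos hApos]; exact hA2 b hb
      · exact hB2 b hb
      · exact hF b hb
      · have hApos : (0 : ℝ) < A c := by exact_mod_cast hA c hc
        rw [abs_of_pos hApos]; exact hA2 c hc
      · exact hB2 c hc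
      · exact hF c hc
      · exact hvol)
    hcon
  -- the difference vector
  have key : ∀ A₀ B₀ C₀ : ℤ, 0 ≤ A₀ → ¬ (A₀ = 0 ∧ B₀ = 0 ∧ C₀ = 0) → |(A₀ : ℝ)| ≤ 4 * W₁ / m →
      |(B₀ : ℝ)| ≤ 4 * W₂ / m → |(A₀ : ℝ) * t + B₀ * Real.sqrt 2 + C₀| ≤ 4 * W₃ / m → False := by
    intro A₀ B₀ C₀ hA0 hne h1 h2 h3
    have hvβ : (2 : ℝ) ^ (30 * v) ≤ 2 ^ (32 * β) := two_pow_le (by omega)
    have hβ1 : (1 : ℝ) ≤ 2 ^ (32 * β) := one_le_pow₀ (by norm_num)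
    have hm1' : (1 : ℝ) ≤ m := by exact_mod_cast hm1
    rcases hA0.eq_or_lt with hA0 | hA0
    · -- A₀ = 0
      rw [← hA0] at h3 hne
      simp only [Int.cast_zero, zero_mul, zero_add] at h3
      by_cases hB0 : B₀ = 0
      · have hC0 : C₀ ≠ 0 := fun h => hne ⟨rfl, hB0, h⟩
        rw [hB0] at h3
        simp only [Int.cast_zero, zero_mul, zero_add] at h3
        have h4 : (1 : ℝ) ≤ |(C₀ : ℝ)| := by
          rw [← Int.cast_abs]; exact_mod_cast Int.one_le_abs hC0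
        have h5 : 4 * W₃ / m ≤ 4 * W₃ := div_le_self (by positivity) hm1'
        have h6 : W₃ ≤ 2 * ((2 : ℝ) ^ 70)⁻¹ := by
          rw [hW3, div_le_iff₀ (by positivity)]
          have : (2 : ℝ) ^ (64 * β) = 2 ^ (32 * β) * 2 ^ (32 * β) := by
            rw [← pow_add]; congr 1; ring
          rw [this]
          have h7 : (2 : ℝ) ^ (30 * v) ≤ 2 ^ (32 * β) * 2 ^ (32 * β) := by nlinarith
          calc 2 * (((2 : ℝ) ^ 70)⁻¹ * 2 ^ (30 * v)) = 2 * ((2 : ℝ) ^ 70)⁻¹ * 2 ^ (30 * v) := by ring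
            _ ≤ _ := by gcongr
        have h8 : 4 * (2 * ((2 : ℝ) ^ 70)⁻¹) < 1 := by norm_num
        linarith
      · have h4 := sqrt_two_bad B₀ C₀ hB0
        have h5 : |(B₀ : ℝ)| * |(B₀ : ℝ) * Real.sqrt 2 + C₀| ≤ (4 * W₂ / m) * (4 * W₃ / m) := by
          gcongr
        have h6 : (4 * W₂ / m) * (4 * W₃ / m) ≤ 16 * (W₂ * W₃) := by
          have : (4 * W₂ / m) * (4 * W₃ / m) = 16 * (W₂ * W₃) / (m * m) := by ring
          rw [this]
          apply div_le_self (by positivity)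
          nlinarith
        have h7 : W₂ * W₃ ≤ 2 * 2 ^ 32 * ((2 : ℝ) ^ 70)⁻¹ := by
          rw [hW23, div_le_iff₀ (by positivity)]
          calc 2 * 2 ^ 32 * (((2 : ℝ) ^ 70)⁻¹ * 2 ^ (30 * v)) =
              2 * 2 ^ 32 * ((2 : ℝ) ^ 70)⁻¹ * 2 ^ (30 * v) := by ring
            _ ≤ _ := by gcongr
        have h8 : 16 * (2 * 2 ^ 32 * ((2 : ℝ) ^ 70)⁻¹) < 1 / 4 := by norm_num
        linarith
    · -- A₀ ≥ 1
      have hA1' : (1 : ℤ) ≤ A₀ := hA0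
      have hApos : (0 : ℝ) < A₀ := by exact_mod_cast hA0
      rw [abs_of_pos hApos] at h1
      set H₀ : ℕ := ht A₀ B₀ with hH0
      have hH0ne : H₀ ≠ 0 := by
        have : A₀.natAbs ≤ H₀ := le_max_left _ _
        omega
      have hlg := lg_le H₀ hH0ne
      have hW12 : W₁ ≤ W₂ := two_pow_le (by omega)
      have hH0le : (H₀ : ℝ) ≤ 4 * W₂ / m := by
        rw [hH0, ht]
        push_cast
        apply max_le
        · rw [Nat.cast_natAbs, abs_of_pos hA0]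
          exact h1.trans (by gcongr)
        · rw [Nat.cast_natAbs, Int.cast_abs]; exact h2
      have hsq : (2 : ℝ) ^ (64 * lg H₀) ≤ (4 * W₂ / m) ^ 2 := by
        have e : (2 : ℝ) ^ (64 * lg H₀) = (2 ^ (32 * lg H₀)) ^ 2 := by
          rw [← pow_mul]; congr 1; ring
        rw [e]
        exact pow_le_pow_left₀ (by positivity) (hlg.trans hH0le) 2
      have hprod : (2 : ℝ) ^ (64 * lg H₀) * A₀ ≤ (4 * W₂ / m) ^ 2 * (4 * W₁ / m) := by
        gcongr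
      have hm3 : (m : ℝ) ^ 3 = 2 ^ 735 * 2 ^ (30 * v) := by
        rw [hmR, ← pow_mul, ← pow_add]; congr 1; ring
      -- Claim A
      have hclaimA : h ≤ rho2 A₀ B₀ := by
        rw [rho2, ← hH0, le_div_iff₀ (by positivity)]
        have h4 := hE1 a ha
        have h5 := hA1 a ha
        have h6 : h * 2 ^ (32 * α) * 2 ^ (64 * β) ≤ ((2 : ℝ) ^ 70)⁻¹ * 2 ^ (30 * v) := by
          refine le_trans ?_ h4.le
          gcongr
        calc h * ((2 : ℝ) ^ (64 * lg H₀) * A₀) ≤ h * ((4 * W₂ / m) ^ 2 * (4 * W₁ / m)) := by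
              gcongr
          _ = (h * 2 ^ (32 * α) * 2 ^ (64 * β)) * 2 ^ 102 / (m : ℝ) ^ 3 := by
              rw [hW1, hW2]
              have : (2 : ℝ) ^ (64 * β) = 2 ^ (32 * β) * 2 ^ (32 * β) := by
                rw [← pow_add]; congr 1; ring
              rw [this, pow_add, pow_add]
              field_simp
              ring
          _ ≤ (((2 : ℝ) ^ 70)⁻¹ * 2 ^ (30 * v)) * 2 ^ 102 / (m : ℝ) ^ 3 := by gcongr
          _ = ((2 : ℝ) ^ 703)⁻¹ := by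
              rw [hm3]
              have e1 : (2 : ℝ) ^ 735 = 2 ^ 703 * 2 ^ 32 := by rw [← pow_add]
              have e2 : (2 : ℝ) ^ 102 = 2 ^ 70 * 2 ^ 32 := by rw [← pow_add]
              rw [e1, e2]
              field_simp
      have hrpos : 0 < rho2 A₀ B₀ := lt_of_lt_of_le hpos hclaimA
      have hg := good A₀ B₀ C₀ hA1' (by linarith)
      -- Claim B
      have hF0 : |t - (-((B₀ : ℝ) * Real.sqrt 2 + C₀) / A₀)| * A₀ ≤ 4 * W₃ / m := by
        have e : |t - (-((B₀ : ℝ) * Real.sqrt 2 + C₀) / A₀)| * A₀ =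
            |(A₀ : ℝ) * t + B₀ * Real.sqrt 2 + C₀| := by
          rw [← abs_of_pos hApos, ← abs_mul, abs_of_pos hApos]
          congr 1
          field_simp
          ring
        rw [e]; exact h3
      have h4 : rho2 A₀ B₀ * A₀ ≤ 4 * W₃ / m :=
        (mul_le_mul_of_nonneg_right hg hApos.le).trans hF0
      have h5 : ((2 : ℝ) ^ 703)⁻¹ ≤ (4 * W₃ / m) * 2 ^ (64 * lg H₀) := by
        have e : rho2 A₀ B₀ * A₀ = ((2 : ℝ) ^ 703)⁻¹ / 2 ^ (64 * lg H₀) := by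
          rw [rho2, ← hH0]; field_simp
        rw [e, div_le_iff₀ (by positivity)] at h4
        exact h4
      have h6 : (4 * W₃ / m) * 2 ^ (64 * lg H₀) ≤ (4 * W₃ / m) * (4 * W₂ / m) ^ 2 := by
        gcongr
      have h7 : (4 * W₃ / m) * (4 * W₂ / m) ^ 2 = 2 ^ 71 * (((2 : ℝ) ^ 70)⁻¹ * 2 ^ (30 * v)) / (m : ℝ) ^ 3 := by
        rw [hW2, hW3]
        have : (2 : ℝ) ^ (64 * β) = 2 ^ (32 * β) * 2 ^ (32 * β) := by
          rw [← pow_add]; congr 1; ring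
        rw [this, pow_add]
        field_simp
        ring
      have h8 : 2 ^ 71 * (((2 : ℝ) ^ 70)⁻¹ * 2 ^ (30 * v)) / (m : ℝ) ^ 3 = ((2 : ℝ) ^ 734)⁻¹ := by
        rw [hm3]
        have e1 : (2 : ℝ) ^ 735 = 2 ^ 734 * 2 := by rw [← pow_succ]
        have e2 : (2 : ℝ) ^ 71 = 2 ^ 70 * 2 := by rw [← pow_succ]
        rw [e1, e2]
        field_simp
      have h9 : ((2 : ℝ) ^ 734)⁻¹ < ((2 : ℝ) ^ 703)⁻¹ :=
        inv_strictAnti₀ (by positivity) (two_pow_lt (by norm_num))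
      rw [h7, h8] at h6
      linarith
  rcases le_total (A b) (A a) with hle | hle
  · apply key (A a - A b) (B a - B b) (C a - C b) (by omega)
    · rintro ⟨h1, h2, h3⟩
      exact hab (hinj a ha b hb (by omega) (by omega) (by omega))
    · push_cast; exact hd1
    · push_cast; exact hd2
    · push_cast
      have e : ((A a : ℝ) - A b) * t + (B a - B b) * Real.sqrt 2 + (C a - C b) =
        (A a : ℝ) * t + B a * Real.sqrt 2 + C a - (A b * t + B b * Real.sqrt 2 + C b) := by ring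
      rw [e]; exact hd3
  · apply key (A b - A a) (B b - B a) (C b - C a) (by omega)
    · rintro ⟨h1, h2, h3⟩
      exact hab (hinj a ha b hb (by omega) (by omega) (by omega))
    · push_cast; rw [abs_sub_comm]; exact hd1
    · push_cast; rw [abs_sub_comm]; exact hd2
    · push_cast
      have e : ((A b : ℝ) - A a) * t + (B b - B a) * Real.sqrt 2 + (C b - C a) =
        -((A a : ℝ) * t + B a * Real.sqrt 2 + C a - (A b * t + B b * Real.sqrt 2 + C b)) := by ring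
      rw [e, abs_neg]; exact hd3

end Pool.Agent.Helper92.Bad
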