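import Mathlib
import Pool.Agent.Helper92.CountTwo

set_option autoImplicit false

namespace Pool.Agent.Helper92.Bad

open Finset

/-- distance of `q √2` to the nearest integer -/
noncomputable def yf (q : ℕ) : ℝ := |(q : ℝ) * Real.sqrt 2 - (round ((q : ℝ) * Real.sqrt 2) : ℝ)|

theorem yf_lower (q : ℕ) (hq : 1 ≤ q) : 1 / 4 ≤ yf q * q := by
  have h := sqrt_two_bad (q : ℤ) (-round ((q : ℝ) * Real.sqrt 2)) (by omega)
  have h1 : |((q : ℤ) : ℝ)| = q := by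
    rw [Int.cast_natCast, abs_of_nonneg (by positivity)]
  rw [h1] at h
  push_cast at h
  rw [yf, mul_comm]
  exact h

theorem yf_pos (q : ℕ) (hq : 1 ≤ q) : 0 < yf q := by
  have h := yf_lower q hq
  have hq' : (0 : ℝ) < q := by exact_mod_cast hq
  by_contra hcon
  push Not at hcon
  have : yf q * q ≤ 0 := mul_nonpos_of_nonpos_of_nonneg hcon hq'.le
  linarith

theorem yf_le_half (q : ℕ) : yf q ≤ 1 / 2 := abs_sub_round _

noncomputable def rho1 (T q : ℕ) : ℝ :=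
  ((2 : ℝ) ^ 1215)⁻¹ * 2 ^ (16 * (T - lg q)) / (2 ^ (32 * T) * (yf q * q))

noncomputable def z1 (T q : ℕ) : ℝ :=
  ((2 : ℝ) ^ 70)⁻¹ * 2 ^ (26 * (T - lg q)) / (2 ^ (32 * T) * (yf q * q))

theorem rho1_eq (T q : ℕ) : rho1 T q * 2 ^ 1145 * 2 ^ (10 * (T - lg q)) = z1 T q := by
  rw [rho1, z1]
  have e1 : (2 : ℝ) ^ (26 * (T - lg q)) = 2 ^ (16 * (T - lg q)) * 2 ^ (10 * (T - lg q)) := by
    rw [← pow_add]; congr 1; ring
  have e2 : (2 : ℝ) ^ 1215 = 2 ^ 70 * 2 ^ 1145 := by rw [← pow_add]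
  rw [e1, e2]
  field_simp

theorem countOne {ι : Type*} (T i : ℕ) (t : ℝ)
    (good : ∀ (q : ℕ) (p : ℤ), 1 ≤ q → q < 2 ^ (32 * T) → ((2 : ℝ) ^ (32 * i))⁻¹ ≤ 2 * rho1 T q →
      rho1 T q ≤ |t - p / q|)
    (V : Finset ι) (q : ι → ℕ) (p : ι → ℤ)
    (hinj : ∀ a ∈ V, ∀ b ∈ V, q a = q b → p a = p b → a = b)
    (a k : ℕ) (hT : T = a + k) (hq : ∀ l ∈ V, 1 ≤ q l) (hlg : ∀ l ∈ V, lg (q l) = a)
    (hz : ∀ l ∈ V, ((2 : ℝ) ^ (32 * i))⁻¹ < z1 T (q l))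
    (hz' : ∀ l ∈ V, z1 T (q l) ≤ 2 ^ 32 * ((2 : ℝ) ^ (32 * i))⁻¹)
    (hmeet : ∀ l ∈ V, ∃ y ∈ Set.Icc t (t + ((2 : ℝ) ^ (32 * i))⁻¹),
      |y - p l / q l| < rho1 T (q l)) :
    #V ≤ (2 ^ (480 + 4 * k) + 1) ^ 2 := by
  by_contra hcon
  push Not at hcon
  set h : ℝ := ((2 : ℝ) ^ (32 * i))⁻¹ with hh
  have hpos : 0 < h := by rw [hh]; positivity
  set m : ℕ := 2 ^ (480 + 4 * k) with hm
  have hm1 : 1 ≤ m := Nat.one_le_two_pow
  have hmR : (m : ℝ) = 2 ^ (480 + 4 * k) := by rw [hm]; push_cast; ring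
  have hmpos : (0 : ℝ) < m := by exact_mod_cast hm1
  have hm1' : (1 : ℝ) ≤ m := by exact_mod_cast hm1
  have hTk : ∀ l ∈ V, T - lg (q l) = k := by
    intro l hl
    rw [hlg l hl]; omega
  have hqpos : ∀ l ∈ V, (0 : ℝ) < q l := fun l hl => by exact_mod_cast hq l hl
  have hq1 : ∀ l ∈ V, (2 : ℝ) ^ (32 * a) ≤ (q l : ℝ) := by
    intro l hl
    have h2 := lg_le (q l) (by have := hq l hl; omega)
    rwa [hlg l hl] at h2
  have hq2 : ∀ l ∈ V, (q l : ℝ) ≤ 2 ^ (32 * a + 32) := by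
    intro l hl
    have h2 := lt_lg (q l)
    rw [hlg l hl] at h2
    exact h2.le
  have hE1 : ∀ l ∈ V, h * (yf (q l) * q l) * 2 ^ (32 * T) < ((2 : ℝ) ^ 70)⁻¹ * 2 ^ (26 * k) := by
    intro l hl
    have h1 := hz l hl
    have hy := yf_pos (q l) (hq l hl)
    have hqp := hqpos l hl
    rw [z1, hTk l hl, lt_div_iff₀ (by positivity)] at h1
    linarith
  have hrho : ∀ l ∈ V, rho1 T (q l) ≤ h := by
    intro l hl
    have h1 := rho1_eq T (q l)
    have h2 := hz' l hl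
    rw [← h1] at h2
    have hy := yf_pos (q l) (hq l hl)
    have hqp := hqpos l hl
    have hr0 : 0 ≤ rho1 T (q l) := by rw [rho1]; positivity
    have e1 : (2 : ℝ) ^ 32 ≤ 2 ^ 1145 := two_pow_le (by norm_num)
    have e2 : (1 : ℝ) ≤ 2 ^ (10 * (T - lg (q l))) := one_le_pow₀ (by norm_num)
    have e3 : rho1 T (q l) * 2 ^ 32 ≤ 2 ^ 32 * h := by
      have e5 : rho1 T (q l) * 2 ^ 32 ≤ rho1 T (q l) * 2 ^ 1145 := mul_le_mul_of_nonneg_left e1 hr0
      have e6 : 0 ≤ rho1 T (q l) * 2 ^ 1145 := mul_nonneg hr0 (by positivity)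
      have e7 : rho1 T (q l) * 2 ^ 1145 * 1 ≤
          rho1 T (q l) * 2 ^ 1145 * 2 ^ (10 * (T - lg (q l))) := mul_le_mul_of_nonneg_left e2 e6
      rw [mul_one] at e7
      exact e5.trans (e7.trans h2)
    have e4 : (0 : ℝ) < 2 ^ 32 := by positivity
    nlinarith
  set W₁ : ℝ := 2 ^ (32 * a + 32) with hW1
  set W₂ : ℝ := 2 * 2 ^ (32 * a + 32) * h with hW2
  set W₃ : ℝ := ((2 : ℝ) ^ 70)⁻¹ * 2 ^ (26 * k) / (h * 2 ^ (32 * T) * 2 ^ (32 * a)) with hW3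
  have hF1 : ∀ l ∈ V, |(q l : ℝ)| ≤ W₁ := by
    intro l hl
    rw [abs_of_pos (hqpos l hl)]; exact hq2 l hl
  have hF2 : ∀ l ∈ V, |(q l : ℝ) * t - p l| ≤ W₂ := by
    intro l hl
    obtain ⟨y, hy, hyx⟩ := hmeet l hl
    have hqp := hqpos l hl
    have e : (q l : ℝ) * t - p l = q l * (t - y) + q l * (y - p l / q l) := by
      field_simp; ring
    rw [e]
    have h2 : |(q l : ℝ) * (t - y)| ≤ q l * h := by
      rw [abs_mul, abs_of_pos hqp]
      gcongr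
      rw [abs_le]
      constructor <;> linarith [hy.1, hy.2]
    have h3 : |(q l : ℝ) * (y - p l / q l)| ≤ q l * h := by
      rw [abs_mul, abs_of_pos hqp]
      gcongr
      exact hyx.le.trans (hrho l hl)
    calc |(q l : ℝ) * (t - y) + q l * (y - p l / q l)|
        ≤ |(q l : ℝ) * (t - y)| + |q l * (y - p l / q l)| := abs_add_le _ _
      _ ≤ q l * h + q l * h := add_le_add h2 h3
      _ = 2 * q l * h := by ring
      _ ≤ W₂ := by
          rw [hW2]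
          gcongr
          exact hq2 l hl
  have hF3 : ∀ l ∈ V, |(q l : ℝ) * Real.sqrt 2 - (round ((q l : ℝ) * Real.sqrt 2) : ℝ)| ≤ W₃ := by
    intro l hl
    have h1 := hE1 l hl
    have h2 := hq1 l hl
    have hy := yf_pos (q l) (hq l hl)
    have h3 : yf (q l) ≤ W₃ := by
      rw [hW3, le_div_iff₀ (by positivity)]
      calc yf (q l) * (h * 2 ^ (32 * T) * 2 ^ (32 * a)) ≤
          yf (q l) * (h * 2 ^ (32 * T) * q l) := by gcongr
        _ = h * (yf (q l) * q l) * 2 ^ (32 * T) := by ring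
        _ ≤ _ := h1.le
    exact h3
  have hW23 : W₂ * W₃ = 2 ^ 33 * (((2 : ℝ) ^ 70)⁻¹ * 2 ^ (26 * k)) / 2 ^ (32 * T) := by
    rw [hW2, hW3, pow_add]
    field_simp
  have hTpow : (2 : ℝ) ^ (32 * T) = 2 ^ (32 * a) * (2 ^ (26 * k) * 2 ^ (6 * k)) := by
    rw [← pow_add, ← pow_add]; congr 1; rw [hT]; ring
  have h6k : (1 : ℝ) ≤ 2 ^ (6 * k) := one_le_pow₀ (by norm_num)
  have hvol : 6 * (W₁ * W₂ * W₃) < 1 := by
    rw [mul_assoc W₁, hW23, hW1, hTpow, pow_add]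
    have e4 : 6 * ((2 : ℝ) ^ (32 * a) * 2 ^ 32 * (2 ^ 33 * (((2 : ℝ) ^ 70)⁻¹ * 2 ^ (26 * k)) /
        (2 ^ (32 * a) * (2 ^ (26 * k) * 2 ^ (6 * k))))) =
        (6 * 2 ^ 32 * 2 ^ 33 / 2 ^ 70) / 2 ^ (6 * k) := by
      field_simp
    rw [e4, div_lt_one (by positivity)]
    have e5 : (6 * 2 ^ 32 * 2 ^ 33 / 2 ^ 70 : ℝ) < 1 := by norm_num
    linarith
  obtain ⟨u, hu, w, hw, huw, hd1, hd2, hd3⟩ := Coplanar.small_difference V
    (fun l => (q l : ℝ)) (fun l => (q l : ℝ) * t - p l)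
    (fun l => (q l : ℝ) * Real.sqrt 2 - (round ((q l : ℝ) * Real.sqrt 2) : ℝ))
    W₁ W₂ W₃ m hm1 hF1 hF2 hF3
    (fun a ha b hb c hc => by
      apply Coplanar.det_zero _ _ _ _ _ _ _ _ _ W₁ W₂ W₃
        ((q a : ℤ) * (p b * round ((q c : ℝ) * Real.sqrt 2) - round ((q b : ℝ) * Real.sqrt 2) * p c)
          - p a * (q b * round ((q c : ℝ) * Real.sqrt 2) - round ((q b : ℝ) * Real.sqrt 2) * q c)
          + round ((q a : ℝ) * Real.sqrt 2) * (q b * p c - p b * q c))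
      · push_cast; ring
      · exact hF1 a ha
      · exact hF2 a ha
      · exact hF3 a ha
      · exact hF1 b hb
      · exact hF2 b hb
      · exact hF3 b hb
      · exact hF1 c hc
      · exact hF2 c hc
      · exact hF3 c hc
      · exact hvol)
    hcon
  -- the difference vector
  have key : ∀ (q₀ : ℕ) (p₀ r₀ : ℤ), 1 ≤ q₀ → (q₀ : ℝ) ≤ 4 * W₁ / m →
      |(q₀ : ℝ) * t - p₀| ≤ 4 * W₂ / m → |(q₀ : ℝ) * Real.sqrt 2 - r₀| ≤ 4 * W₃ / m → False := by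
    intro q₀ p₀ r₀ hq0 h1 h2 h3
    have hqp : (0 : ℝ) < q₀ := by exact_mod_cast hq0
    have hy0 := yf_pos q₀ hq0
    have hyle : yf q₀ ≤ 4 * W₃ / m := (round_le _ r₀).trans h3
    set a₀ := lg q₀ with ha0
    have hlg0 := lg_le q₀ (by omega)
    rw [← ha0] at hlg0
    -- exponents
    have hexp : 32 * a₀ + 480 + 4 * k ≤ 34 + 32 * a := by
      have h4 : (2 : ℝ) ^ (32 * a₀) ≤ 4 * W₁ / m := hlg0.trans h1
      rw [le_div_iff₀ hmpos, hmR, hW1, ← pow_add] at h4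
      have e : (4 : ℝ) * 2 ^ (32 * a + 32) = 2 ^ (34 + 32 * a) := by
        rw [show (4 : ℝ) = 2 ^ 2 by norm_num, ← pow_add]; congr 1; ring
      rw [e] at h4
      have := (pow_le_pow_iff_right₀ (by norm_num : (1 : ℝ) < 2)).mp h4
      omega
    obtain ⟨d, hd⟩ : ∃ d, a = a₀ + d := ⟨a - a₀, by omega⟩
    have hTa0 : T - a₀ = k + d := by omega
    have hexp2 : 223 + 2 * k ≤ 16 * d := by omega
    have hq0lt : q₀ < 2 ^ (32 * T) := by
      have h4 : (q₀ : ℝ) < 2 ^ (32 * T) := by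
        refine lt_of_lt_of_le (lt_lg q₀) ?_
        rw [← ha0]
        apply two_pow_le
        omega
      exact_mod_cast h4
    have hg := good q₀ p₀ hq0 hq0lt
    have hm2 : (m : ℝ) ^ 2 = 2 ^ (960 + 8 * k) := by
      rw [hmR, ← pow_mul]; congr 1; ring
    have hW31 : W₃ * W₁ = 2 ^ 32 * (((2 : ℝ) ^ 70)⁻¹ * 2 ^ (26 * k)) / (h * 2 ^ (32 * T)) := by
      rw [hW3, hW1, pow_add]
      field_simp
    -- Claim A
    have hclaimA : h ≤ rho1 T q₀ := by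
      rw [rho1, ← ha0, hTa0, le_div_iff₀ (by positivity)]
      calc h * ((2 : ℝ) ^ (32 * T) * (yf q₀ * q₀))
          ≤ h * (2 ^ (32 * T) * ((4 * W₃ / m) * (4 * W₁ / m))) := by gcongr
        _ = 16 * h * 2 ^ (32 * T) * (W₃ * W₁) / (m : ℝ) ^ 2 := by field_simp; ring
        _ = 2 ^ 36 * (((2 : ℝ) ^ 70)⁻¹ * 2 ^ (26 * k)) / 2 ^ (960 + 8 * k) := by
            rw [hW31, hm2]
            field_simp
            ring
        _ ≤ ((2 : ℝ) ^ 1215)⁻¹ * 2 ^ (16 * (k + d)) := by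
            rw [div_le_iff₀ (by positivity)]
            have e1 : 2 ^ 36 * (((2 : ℝ) ^ 70)⁻¹ * 2 ^ (26 * k)) =
              2 ^ (36 + 26 * k) * ((2 : ℝ) ^ 70)⁻¹ := by rw [pow_add]; ring
            have e2 : ((2 : ℝ) ^ 1215)⁻¹ * 2 ^ (16 * (k + d)) * 2 ^ (960 + 8 * k) =
              2 ^ (16 * (k + d) + (960 + 8 * k)) * ((2 : ℝ) ^ 1215)⁻¹ := by
              rw [pow_add _ (16 * (k + d))]; ring
            rw [e1, e2, ← div_eq_mul_inv, ← div_eq_mul_inv, div_le_div_iff₀ (by positivity) (by positivity),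
              ← pow_add, ← pow_add]
            apply two_pow_le
            omega
    have hg' := hg (by linarith)
    -- Claim B
    have h4 : rho1 T q₀ * q₀ ≤ 4 * W₂ / m := by
      have e : |t - (p₀ : ℝ) / q₀| * q₀ = |(q₀ : ℝ) * t - p₀| := by
        rw [← abs_of_pos hqp, ← abs_mul, abs_of_pos hqp]
        congr 1
        field_simp
      calc rho1 T q₀ * q₀ ≤ |t - (p₀ : ℝ) / q₀| * q₀ := by gcongr
        _ = |(q₀ : ℝ) * t - p₀| := e
        _ ≤ _ := h2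
    have h5 : ((2 : ℝ) ^ 1215)⁻¹ * 2 ^ (16 * (k + d)) / 2 ^ (32 * T) ≤ (4 * W₂ / m) * (4 * W₃ / m) := by
      have e : ((2 : ℝ) ^ 1215)⁻¹ * 2 ^ (16 * (k + d)) / 2 ^ (32 * T) = rho1 T q₀ * q₀ * yf q₀ := by
        rw [rho1, ← ha0, hTa0]; field_simp
      rw [e]
      gcongr
    have h6 : (4 * W₂ / m) * (4 * W₃ / m) =
        2 ^ 37 * (((2 : ℝ) ^ 70)⁻¹ * 2 ^ (26 * k)) / 2 ^ (960 + 8 * k) / 2 ^ (32 * T) := by
      have : (4 * W₂ / m) * (4 * W₃ / m) = 16 * (W₂ * W₃) / (m : ℝ) ^ 2 := by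
        field_simp; ring
      rw [this, hW23, hm2]
      field_simp
      ring
    rw [h6, div_le_div_iff_of_pos_right (by positivity)] at h5
    rw [le_div_iff₀ (by positivity)] at h5
    have e1 : 2 ^ 37 * (((2 : ℝ) ^ 70)⁻¹ * 2 ^ (26 * k)) =
      2 ^ (37 + 26 * k) * ((2 : ℝ) ^ 70)⁻¹ := by rw [pow_add]; ring
    have e2 : ((2 : ℝ) ^ 1215)⁻¹ * 2 ^ (16 * (k + d)) * 2 ^ (960 + 8 * k) =
      2 ^ (16 * (k + d) + (960 + 8 * k)) * ((2 : ℝ) ^ 1215)⁻¹ := by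
      rw [pow_add _ (16 * (k + d))]; ring
    rw [e1, e2, ← div_eq_mul_inv, ← div_eq_mul_inv, div_le_div_iff₀ (by positivity) (by positivity),
      ← pow_add, ← pow_add] at h5
    have := (pow_le_pow_iff_right₀ (by norm_num : (1 : ℝ) < 2)).mp h5
    omega
  -- same denominators are impossible
  have hsame : q u ≠ q w := by
    intro heq
    have hpne : p u - p w ≠ 0 := by
      intro h0
      exact huw (hinj u hu w hw heq (by omega))
    have h1 : (1 : ℝ) ≤ |((p u - p w : ℤ) : ℝ)| := by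
      rw [← Int.cast_abs]; exact_mod_cast Int.one_le_abs hpne
    have h2 : |((p u - p w : ℤ) : ℝ)| ≤ 4 * W₂ / m := by
      have e : (q u : ℝ) * t - p u - ((q w : ℝ) * t - p w) = -((p u - p w : ℤ) : ℝ) := by
        rw [heq]; push_cast; ring
      rw [e, abs_neg] at hd2
      exact hd2
    have h3 : 4 * W₂ / m ≤ 4 * W₂ := div_le_self (by positivity) hm1'
    have h4 : W₂ ≤ 2 ^ 35 * ((2 : ℝ) ^ 70)⁻¹ := by
      have h5 := hE1 u hu
      have h6 := yf_lower (q u) (hq u hu)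
      have h7 : h * 2 ^ (32 * T) ≤ 4 * (((2 : ℝ) ^ 70)⁻¹ * 2 ^ (26 * k)) := by
        have : h * (1 / 4) * 2 ^ (32 * T) ≤ ((2 : ℝ) ^ 70)⁻¹ * 2 ^ (26 * k) := by
          refine le_trans ?_ h5.le
          gcongr
        linarith
      rw [hTpow] at h7
      have h8 : h * 2 ^ (32 * a) * 2 ^ (6 * k) ≤ 4 * ((2 : ℝ) ^ 70)⁻¹ := by
        have h9 : (0 : ℝ) < 2 ^ (26 * k) := by positivity
        have h10 : (h * 2 ^ (32 * a) * 2 ^ (6 * k)) * 2 ^ (26 * k) ≤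
          (4 * ((2 : ℝ) ^ 70)⁻¹) * 2 ^ (26 * k) := by linarith
        exact le_of_mul_le_mul_right h10 h9
      have h11 : h * 2 ^ (32 * a) ≤ 4 * ((2 : ℝ) ^ 70)⁻¹ := by
        refine le_trans ?_ h8
        calc h * 2 ^ (32 * a) = h * 2 ^ (32 * a) * 1 := by ring
          _ ≤ _ := by gcongr
      rw [hW2, pow_add]
      calc 2 * ((2 : ℝ) ^ (32 * a) * 2 ^ 32) * h = 2 ^ 33 * (h * 2 ^ (32 * a)) := by ring
        _ ≤ 2 ^ 33 * (4 * ((2 : ℝ) ^ 70)⁻¹) := by gcongr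
        _ = 2 ^ 35 * ((2 : ℝ) ^ 70)⁻¹ := by ring
    have h5 : 4 * (2 ^ 35 * ((2 : ℝ) ^ 70)⁻¹) < 1 := by norm_num
    linarith
  rcases lt_or_gt_of_ne hsame with hlt | hlt
  · apply key (q w - q u) (p w - p u)
      (round ((q w : ℝ) * Real.sqrt 2) - round ((q u : ℝ) * Real.sqrt 2)) (by omega)
    · rw [Nat.cast_sub hlt.le]
      have := (abs_le.mp hd1).1
      linarith
    · rw [Nat.cast_sub hlt.le]
      push_cast
      have e : ((q w : ℝ) - q u) * t - (p w - p u) =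
        -((q u : ℝ) * t - p u - ((q w : ℝ) * t - p w)) := by ring
      rw [e, abs_neg]; exact hd2
    · rw [Nat.cast_sub hlt.le]
      push_cast
      have e : ((q w : ℝ) - q u) * Real.sqrt 2 - ((round ((q w : ℝ) * Real.sqrt 2) : ℝ) -
        (round ((q u : ℝ) * Real.sqrt 2) : ℝ)) = -((q u : ℝ) * Real.sqrt 2 -
        (round ((q u : ℝ) * Real.sqrt 2) : ℝ) - ((q w : ℝ) * Real.sqrt 2 -
        (round ((q w : ℝ) * Real.sqrt 2) : ℝ))) := by ring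
      rw [e, abs_neg]; exact hd3
  · apply key (q u - q w) (p u - p w)
      (round ((q u : ℝ) * Real.sqrt 2) - round ((q w : ℝ) * Real.sqrt 2)) (by omega)
    · rw [Nat.cast_sub hlt.le]
      have := (abs_le.mp hd1).2
      linarith
    · rw [Nat.cast_sub hlt.le]
      push_cast
      have e : ((q u : ℝ) - q w) * t - (p u - p w) =
        ((q u : ℝ) * t - p u - ((q w : ℝ) * t - p w)) := by ring
      rw [e]; exact hd2
    · rw [Nat.cast_sub hlt.le]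
      push_cast
      have e : ((q u : ℝ) - q w) * Real.sqrt 2 - ((round ((q u : ℝ) * Real.sqrt 2) : ℝ) -
        (round ((q w : ℝ) * Real.sqrt 2) : ℝ)) = ((q u : ℝ) * Real.sqrt 2 -
        (round ((q u : ℝ) * Real.sqrt 2) : ℝ) - ((q w : ℝ) * Real.sqrt 2 -
        (round ((q w : ℝ) * Real.sqrt 2) : ℝ))) := by ring
      rw [e]; exact hd3

end Pool.Agent.Helper92.Bad
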