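import Mathlib

set_option autoImplicit false

namespace Pool.Agent.Helper92.Potential

open Finset

open scoped Classical in
/-- An interval of length at most `h` meets at most two of the cells of a grid of mesh `h`. -/
theorem card_cells_le_two (n : ℕ) (t h x r : ℝ) (hh : 0 < h) (hr : 2 * r ≤ h) :
    #((range n).filter (fun s : ℕ => ∃ y ∈ Set.Icc (t + (s : ℝ) * h) (t + s * h + h), |y - x| < r)) ≤ 2 := by
  classical
  by_cases hne : ((range n).filter (fun s : ℕ => ∃ y ∈ Set.Icc (t + (s : ℝ) * h) (t + s * h + h), |y - x| < r)).Nonempty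
  swap
  · rw [not_nonempty_iff_eq_empty] at hne
    rw [hne]; simp
  · set S := (range n).filter (fun s : ℕ => ∃ y ∈ Set.Icc (t + (s : ℝ) * h) (t + s * h + h), |y - x| < r) with hS
    set s₀ := S.min' hne with hs₀
    have hs₀mem : s₀ ∈ S := min'_mem _ _
    have hsub : S ⊆ {s₀, s₀ + 1} := by
      intro s hs
      have hle : s₀ ≤ s := min'_le _ _ hs
      have h1 := (mem_filter.mp hs).2
      have h0 := (mem_filter.mp hs₀mem).2
      obtain ⟨y, hy, hyx⟩ := h1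
      obtain ⟨y₀, hy₀, hyx₀⟩ := h0
      have hlt : s < s₀ + 2 := by
        by_contra hcon
        push Not at hcon
        have hcast : (s₀ : ℝ) + 2 ≤ s := by exact_mod_cast hcon
        have h2 : ((s₀ : ℝ) + 2) * h ≤ s * h := mul_le_mul_of_nonneg_right hcast hh.le
        have h3 := abs_lt.mp hyx
        have h4 := abs_lt.mp hyx₀
        have h5 := hy.1
        have h6 := hy₀.2
        linarith [h3.1, h3.2, h4.1, h4.2]
      simp only [mem_insert, mem_singleton]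
      omega
    calc #S ≤ #({s₀, s₀ + 1} : Finset ℕ) := card_le_card hsub
      _ ≤ 2 := card_le_two

theorem potential_step {ι : Type*} (x ρ z : ι → ℝ) (R : ℕ) (hR : 2 ≤ R) (c φ : ℝ) (hc0 : 0 < c)
    (hRc : 4 * (R : ℝ) ^ c ≤ R) (hφ0 : 0 < φ) (hφR : φ ≤ ((R : ℝ)⁻¹) ^ c)
    (hρ : ∀ l, 0 < ρ l) (hρz : ∀ l, 2 * R * ρ l < z l)
    (H : ∀ (i : ℕ) (t : ℝ),
      (∀ l, ((R : ℝ) ^ i)⁻¹ ≤ 2 * ρ l →
        ∀ y ∈ Set.Icc t (t + ((R : ℝ) ^ i)⁻¹), ρ l ≤ |y - x l|) →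
      ∀ V : Finset ι, (∀ l ∈ V, ((R : ℝ) ^ i)⁻¹ < z l ∧ z l ≤ R * ((R : ℝ) ^ i)⁻¹ ∧
        ∃ y ∈ Set.Icc t (t + ((R : ℝ) ^ i)⁻¹), |y - x l| < ρ l) →
      ∑ l ∈ V, (2 * ρ l * (R : ℝ) ^ i) ^ c ≤ φ / 2)
    (i : ℕ) (t : ℝ)
    (hP : ∀ V : Finset ι, (∀ l ∈ V, ((R : ℝ) ^ i)⁻¹ < z l ∧
        ∃ y ∈ Set.Icc t (t + ((R : ℝ) ^ i)⁻¹), |y - x l| < ρ l) →
      ∑ l ∈ V, (2 * ρ l * (R : ℝ) ^ i) ^ c ≤ φ) :
    ∃ s : ℕ, s < R ∧ ∀ V : Finset ι, (∀ l ∈ V, ((R : ℝ) ^ (i + 1))⁻¹ < z l ∧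
        ∃ y ∈ Set.Icc (t + s * ((R : ℝ) ^ (i + 1))⁻¹)
          (t + s * ((R : ℝ) ^ (i + 1))⁻¹ + ((R : ℝ) ^ (i + 1))⁻¹), |y - x l| < ρ l) →
      ∑ l ∈ V, (2 * ρ l * (R : ℝ) ^ (i + 1)) ^ c ≤ φ := by
  classical
  have hRpos : (0 : ℝ) < R := by exact_mod_cast (by omega : 0 < R)
  have hR1 : (1 : ℝ) ≤ R := by exact_mod_cast (by omega : 1 ≤ R)
  set h : ℝ := ((R : ℝ) ^ (i + 1))⁻¹ with hh
  have hpow : (0 : ℝ) < (R : ℝ) ^ i := pow_pos hRpos i
  have hpow1 : (0 : ℝ) < (R : ℝ) ^ (i + 1) := pow_pos hRpos _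
  have hhpos : 0 < h := inv_pos.mpr hpow1
  have hRh : R * h = ((R : ℝ) ^ i)⁻¹ := by
    rw [hh, pow_succ]; field_simp
  have hnn : ∀ l j, 0 ≤ (2 * ρ l * (R : ℝ) ^ j) ^ c := fun l j =>
    Real.rpow_nonneg (by have := hρ l; positivity) _
  -- find a child with small old potential
  have key : ∃ s : ℕ, s < R ∧ ∀ V : Finset ι, (∀ l ∈ V, ((R : ℝ) ^ i)⁻¹ < z l ∧
        ∃ y ∈ Set.Icc (t + s * h) (t + s * h + h), |y - x l| < ρ l) →
      ∑ l ∈ V, (2 * ρ l * (R : ℝ) ^ (i + 1)) ^ c ≤ φ / 2 := by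
    by_contra hcon
    push Not at hcon
    choose! W hW1 hW2 using hcon
    set V := (range R).biUnion W with hV
    have hVmem : ∀ l ∈ V, ((R : ℝ) ^ i)⁻¹ < z l ∧
        ∃ y ∈ Set.Icc t (t + ((R : ℝ) ^ i)⁻¹), |y - x l| < ρ l := by
      intro l hl
      rw [hV, mem_biUnion] at hl
      obtain ⟨s, hs, hl⟩ := hl
      have hs' : s < R := mem_range.mp hs
      obtain ⟨h1, y, hy, hyx⟩ := hW1 s hs' l hl
      refine ⟨h1, y, ⟨?_, ?_⟩, hyx⟩
      · have : (0 : ℝ) ≤ s * h := by positivity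
        linarith [hy.1]
      · have hsR : (s : ℝ) + 1 ≤ R := by exact_mod_cast hs'
        have : ((s : ℝ) + 1) * h ≤ R * h := mul_le_mul_of_nonneg_right hsR hhpos.le
        rw [hRh] at this
        linarith [hy.2]
    have hsumV := hP V hVmem
    have hsmall : ∀ l ∈ V, 2 * ρ l ≤ h := by
      intro l hl
      have h1 : (2 * ρ l * (R : ℝ) ^ i) ^ c ≤ ((R : ℝ)⁻¹) ^ c :=
        ((single_le_sum (f := fun l => (2 * ρ l * (R : ℝ) ^ i) ^ c)
          (fun l _ => hnn l i) hl).trans hsumV).trans hφR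
      have h2 : 2 * ρ l * (R : ℝ) ^ i ≤ (R : ℝ)⁻¹ :=
        (Real.rpow_le_rpow_iff (by have := hρ l; positivity) (by positivity) hc0).mp h1
      rw [hh, pow_succ, mul_inv]
      rw [← div_eq_mul_inv, le_div_iff₀ hRpos]
      rw [← div_eq_mul_inv] at *
      have h3 : 2 * ρ l * (R : ℝ) ^ i * R ≤ 1 := by
        calc 2 * ρ l * (R : ℝ) ^ i * R ≤ (R : ℝ)⁻¹ * R := mul_le_mul_of_nonneg_right h2 hRpos.le
          _ = 1 := inv_mul_cancel₀ hRpos.ne'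
      rw [le_inv_comm₀ (by have := hρ l; positivity) hpow]
      rw [le_inv_comm₀ hpow (by have := hρ l; positivity)]
      rw [inv_eq_one_div, le_div_iff₀ hpow]
      linarith
    have h1 : (R : ℝ) * (φ / 2) < ∑ s ∈ range R, ∑ l ∈ W s, (2 * ρ l * (R : ℝ) ^ (i + 1)) ^ c := by
      have : ∑ s ∈ range R, (φ / 2) < ∑ s ∈ range R, ∑ l ∈ W s, (2 * ρ l * (R : ℝ) ^ (i + 1)) ^ c := by
        apply sum_lt_sum_of_nonempty
        · exact ⟨0, mem_range.mpr (by omega)⟩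
        · intro s hs
          exact hW2 s (mem_range.mp hs)
      simpa using this
    have h2 : ∑ s ∈ range R, ∑ l ∈ W s, (2 * ρ l * (R : ℝ) ^ (i + 1)) ^ c ≤
        ∑ l ∈ V, 2 * (2 * ρ l * (R : ℝ) ^ (i + 1)) ^ c := by
      have h3 : ∀ s ∈ range R, ∑ l ∈ W s, (2 * ρ l * (R : ℝ) ^ (i + 1)) ^ c ≤
          ∑ l ∈ V, if (∃ y ∈ Set.Icc (t + s * h) (t + s * h + h), |y - x l| < ρ l)
            then (2 * ρ l * (R : ℝ) ^ (i + 1)) ^ c else 0 := by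
        intro s hs
        have hsub : W s ⊆ V := subset_biUnion_of_mem W hs
        rw [← sum_subset_zero_on_sdiff (s₁ := W s) (s₂ := W s) (Subset.refl _)
          (f := fun l => (2 * ρ l * (R : ℝ) ^ (i + 1)) ^ c)
          (g := fun l => (2 * ρ l * (R : ℝ) ^ (i + 1)) ^ c) (by simp) (by simp)]
        calc ∑ l ∈ W s, (2 * ρ l * (R : ℝ) ^ (i + 1)) ^ c
            = ∑ l ∈ W s, if (∃ y ∈ Set.Icc (t + s * h) (t + s * h + h), |y - x l| < ρ l)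
            then (2 * ρ l * (R : ℝ) ^ (i + 1)) ^ c else 0 := by
              apply sum_congr rfl
              intro l hl
              rw [if_pos (hW1 s (mem_range.mp hs) l hl).2]
          _ ≤ _ := by
              apply sum_le_sum_of_subset_of_nonneg hsub
              intro l _ _
              split_ifs
              · exact hnn l _
              · exact le_rfl
      refine (sum_le_sum h3).trans ?_
      rw [sum_comm]
      apply sum_le_sum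
      intro l hl
      rw [← sum_filter, sum_const, nsmul_eq_mul]
      apply mul_le_mul_of_nonneg_right _ (hnn l _)
      exact_mod_cast card_cells_le_two R t h (x l) (ρ l) hhpos (hsmall l hl)
    have h3 : ∑ l ∈ V, 2 * (2 * ρ l * (R : ℝ) ^ (i + 1)) ^ c =
        2 * (R : ℝ) ^ c * ∑ l ∈ V, (2 * ρ l * (R : ℝ) ^ i) ^ c := by
      rw [mul_sum]
      apply sum_congr rfl
      intro l _
      rw [pow_succ, ← mul_assoc, Real.mul_rpow (by have := hρ l; positivity) hRpos.le]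
      ring
    have hRcpos : 0 < (R : ℝ) ^ c := Real.rpow_pos_of_pos hRpos c
    have h4 : 2 * (R : ℝ) ^ c * ∑ l ∈ V, (2 * ρ l * (R : ℝ) ^ i) ^ c ≤ 2 * (R : ℝ) ^ c * φ :=
      mul_le_mul_of_nonneg_left hsumV (by positivity)
    have h5 : 4 * (R : ℝ) ^ c * φ ≤ R * φ := mul_le_mul_of_nonneg_right hRc hφ0.le
    rw [h3] at h2
    linarith
  obtain ⟨s, hsR, hs⟩ := key
  refine ⟨s, hsR, ?_⟩
  have hφ1 : φ ≤ 1 := by
    refine hφR.trans ?_
    apply Real.rpow_le_one (by positivity) _ hc0.le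
    exact inv_le_one_of_one_le₀ hR1
  -- the child is good
  have hgood : ∀ l, ((R : ℝ) ^ (i + 1))⁻¹ ≤ 2 * ρ l →
        ∀ y ∈ Set.Icc (t + s * h) (t + s * h + ((R : ℝ) ^ (i + 1))⁻¹), ρ l ≤ |y - x l| := by
    intro l hl y hy
    by_contra hcon
    push Not at hcon
    have hold : ((R : ℝ) ^ i)⁻¹ < z l := by
      rw [← hRh]
      calc (R : ℝ) * h ≤ R * (2 * ρ l) := mul_le_mul_of_nonneg_left hl hRpos.le
        _ = 2 * R * ρ l := by ring
        _ < z l := hρz l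
    have h1 := hs {l} (by
      intro l' hl'
      rw [mem_singleton] at hl'
      subst hl'
      exact ⟨hold, y, hy, hcon⟩)
    rw [sum_singleton] at h1
    have h2 : (1 : ℝ) ≤ (2 * ρ l * (R : ℝ) ^ (i + 1)) ^ c := by
      apply Real.one_le_rpow _ hc0.le
      have := mul_le_mul_of_nonneg_right hl hpow1.le
      rwa [inv_mul_cancel₀ hpow1.ne'] at this
    linarith
  intro V hV
  have hnew := H (i + 1) (t + s * h) hgood
  have hsplit : ∑ l ∈ V, (2 * ρ l * (R : ℝ) ^ (i + 1)) ^ c =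
      ∑ l ∈ V with ((R : ℝ) ^ i)⁻¹ < z l, (2 * ρ l * (R : ℝ) ^ (i + 1)) ^ c +
      ∑ l ∈ V with ¬ ((R : ℝ) ^ i)⁻¹ < z l, (2 * ρ l * (R : ℝ) ^ (i + 1)) ^ c :=
    (sum_filter_add_sum_filter_not V _ _).symm
  have ho := hs (V.filter (fun l => ((R : ℝ) ^ i)⁻¹ < z l)) (by
    intro l hl
    rw [mem_filter] at hl
    exact ⟨hl.2, (hV l hl.1).2⟩)
  have hn := hnew (V.filter (fun l => ¬ ((R : ℝ) ^ i)⁻¹ < z l)) (by
    intro l hl
    rw [mem_filter] at hl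
    refine ⟨(hV l hl.1).1, ?_, (hV l hl.1).2⟩
    rw [← hh, hRh]
    exact not_lt.mp hl.2)
  rw [hsplit]
  linarith


theorem potential_lemma {ι : Type*} (x ρ z : ι → ℝ) (R : ℕ) (hR : 2 ≤ R) (c φ : ℝ) (hc0 : 0 < c)
    (hRc : 4 * (R : ℝ) ^ c ≤ R) (hφ0 : 0 < φ) (hφR : φ ≤ ((R : ℝ)⁻¹) ^ c)
    (hρ : ∀ l, 0 < ρ l) (hρz : ∀ l, 2 * R * ρ l < z l) (hz : ∀ l, z l ≤ 1)
    (H : ∀ (i : ℕ) (t : ℝ),
      (∀ l, ((R : ℝ) ^ i)⁻¹ ≤ 2 * ρ l →
        ∀ y ∈ Set.Icc t (t + ((R : ℝ) ^ i)⁻¹), ρ l ≤ |y - x l|) →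
      ∀ V : Finset ι, (∀ l ∈ V, ((R : ℝ) ^ i)⁻¹ < z l ∧ z l ≤ R * ((R : ℝ) ^ i)⁻¹ ∧
        ∃ y ∈ Set.Icc t (t + ((R : ℝ) ^ i)⁻¹), |y - x l| < ρ l) →
      ∑ l ∈ V, (2 * ρ l * (R : ℝ) ^ i) ^ c ≤ φ / 2) :
    ∃ ξ : ℝ, ∀ l, ρ l ≤ |ξ - x l| := by
  classical
  have hRpos : (0 : ℝ) < R := by exact_mod_cast (by omega : 0 < R)
  have hR1 : (1 : ℝ) < R := by exact_mod_cast (by omega : 1 < R)
  let P : ℕ → ℝ → Prop := fun i t => ∀ V : Finset ι, (∀ l ∈ V, ((R : ℝ) ^ i)⁻¹ < z l ∧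
        ∃ y ∈ Set.Icc t (t + ((R : ℝ) ^ i)⁻¹), |y - x l| < ρ l) →
      ∑ l ∈ V, (2 * ρ l * (R : ℝ) ^ i) ^ c ≤ φ
  have hstep : ∀ (i : ℕ) (t : ℝ), P i t → ∃ t' : ℝ, P (i + 1) t' ∧ t ≤ t' ∧
      t' + ((R : ℝ) ^ (i + 1))⁻¹ ≤ t + ((R : ℝ) ^ i)⁻¹ := by
    intro i t hP
    obtain ⟨s, hsR, hs⟩ := potential_step x ρ z R hR c φ hc0 hRc hφ0 hφR hρ hρz H i t hP
    have hpow1 : (0 : ℝ) < (R : ℝ) ^ (i + 1) := pow_pos hRpos _
    have hRh : R * ((R : ℝ) ^ (i + 1))⁻¹ = ((R : ℝ) ^ i)⁻¹ := by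
      rw [pow_succ]; field_simp
    refine ⟨t + s * ((R : ℝ) ^ (i + 1))⁻¹, hs, ?_, ?_⟩
    · have : (0 : ℝ) ≤ s * ((R : ℝ) ^ (i + 1))⁻¹ := by positivity
      linarith
    · have hsR' : (s : ℝ) + 1 ≤ R := by exact_mod_cast hsR
      have : ((s : ℝ) + 1) * ((R : ℝ) ^ (i + 1))⁻¹ ≤ R * ((R : ℝ) ^ (i + 1))⁻¹ :=
        mul_le_mul_of_nonneg_right hsR' (by positivity)
      rw [hRh] at this
      linarith
  have h0 : P 0 0 := by
    intro V hV
    have hVe : V = ∅ := by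
      rw [Finset.eq_empty_iff_forall_notMem]
      intro l hl
      have h1 := (hV l hl).1
      have h2 := hz l
      simp only [pow_zero, inv_one] at h1
      linarith
    rw [hVe, sum_empty]
    exact hφ0.le
  choose! nxt hn1 hn2 hn3 using hstep
  let T : ℕ → ℝ := fun n => Nat.rec 0 (fun i t => nxt i t) n
  have hT0 : T 0 = 0 := rfl
  have hTs : ∀ i, T (i + 1) = nxt i (T i) := fun i => rfl
  have hPT : ∀ i, P i (T i) := by
    intro i
    induction i with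
    | zero => exact h0
    | succ i ih => rw [hTs]; exact hn1 i (T i) ih
  have hmono : Monotone T := by
    apply monotone_nat_of_le_succ
    intro i
    rw [hTs]; exact hn2 i (T i) (hPT i)
  have hanti : Antitone (fun i => T i + ((R : ℝ) ^ i)⁻¹) := by
    apply antitone_nat_of_succ_le
    intro i
    show T (i + 1) + ((R : ℝ) ^ (i + 1))⁻¹ ≤ T i + ((R : ℝ) ^ i)⁻¹
    rw [hTs]; exact hn3 i (T i) (hPT i)
  have hle : ∀ i j, T i ≤ T j + ((R : ℝ) ^ j)⁻¹ := by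
    intro i j
    rcases le_total i j with h | h
    · have h1 := hmono h
      have : (0 : ℝ) ≤ ((R : ℝ) ^ j)⁻¹ := by positivity
      linarith
    · have h1 := hanti h
      simp only at h1
      have : (0 : ℝ) ≤ ((R : ℝ) ^ i)⁻¹ := by positivity
      linarith
  have hbdd : BddAbove (Set.range T) := ⟨T 0 + ((R : ℝ) ^ 0)⁻¹, by
    rintro _ ⟨i, rfl⟩
    exact hle i 0⟩
  refine ⟨⨆ i, T i, ?_⟩
  intro l
  by_contra hcon
  push Not at hcon
  -- choose i large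
  obtain ⟨i, hi⟩ := exists_pow_lt_of_lt_one (show (0 : ℝ) < 2 * ρ l by have := hρ l; linarith)
    (inv_lt_one_of_one_lt₀ hR1)
  rw [inv_pow] at hi
  have hpow : (0 : ℝ) < (R : ℝ) ^ i := pow_pos hRpos i
  have hzl : ((R : ℝ) ^ i)⁻¹ < z l := by
    have h1 := hρz l
    have h2 : 2 * ρ l ≤ 2 * R * ρ l := by
      have := hρ l
      nlinarith
    linarith
  have h1 := hPT i {l} (by
    intro l' hl'
    rw [mem_singleton] at hl'
    subst hl'
    exact ⟨hzl, ⨆ i, T i, ⟨le_ciSup hbdd i, ciSup_le (fun j => hle j i)⟩, hcon⟩)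
  rw [sum_singleton] at h1
  have hφ1 : φ < 1 := by
    refine lt_of_le_of_lt hφR ?_
    apply Real.rpow_lt_one (by positivity) _ hc0
    exact inv_lt_one_of_one_lt₀ hR1
  have h2 : (1 : ℝ) ≤ (2 * ρ l * (R : ℝ) ^ i) ^ c := by
    apply Real.one_le_rpow _ hc0.le
    have := mul_le_mul_of_nonneg_right hi.le hpow.le
    rwa [inv_mul_cancel₀ hpow.ne'] at this
  linarith

end Pool.Agent.Helper92.Potential
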