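import Mathlib
import Pool.Agent.Helper92.CountOne
import Pool.Agent.Helper92.Potential

set_option autoImplicit false

namespace Pool.Agent.Helper92.Bad

open Finset

theorem rpow_aux (j : ℕ) : (((2 : ℝ) ^ (10 * j))⁻¹) ^ ((9 : ℝ) / 10) = ((2 : ℝ) ^ (9 * j))⁻¹ := by
  rw [Real.inv_rpow (by positivity), ← Real.rpow_natCast, ← Real.rpow_natCast,
    ← Real.rpow_mul (by norm_num)]
  congr 2
  push_cast
  ring

theorem sum_half_le (s : Finset ℕ) : ∑ v ∈ s, ((1 : ℝ) / 2) ^ v ≤ 2 := by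
  calc ∑ v ∈ s, ((1 : ℝ) / 2) ^ v ≤ ∑' v : ℕ, ((1 : ℝ) / 2) ^ v :=
        Summable.sum_le_tsum s (fun _ _ => by positivity) summable_geometric_two
    _ = 2 := tsum_geometric_two

theorem sum_by_class {ι : Type*} (V : Finset ι) (f : ι → ℝ) (κ : ι → ℕ) (N : ℕ → ℕ) (w : ℕ → ℝ)
    (c₀ : ℝ) (hc₀ : 0 ≤ c₀) (hw : ∀ v, 0 ≤ w v)
    (h1 : ∀ l ∈ V, f l ≤ w (κ l))
    (h2 : ∀ v, #(V.filter (fun l => κ l = v)) ≤ N v)
    (h3 : ∀ v, (N v : ℝ) * w v ≤ c₀ * ((1 : ℝ) / 2) ^ v) :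
    ∑ l ∈ V, f l ≤ 2 * c₀ := by
  classical
  rw [← Finset.sum_fiberwise_of_maps_to (t := V.image κ) (g := κ)
    (fun l hl => mem_image_of_mem κ hl) f]
  calc ∑ v ∈ V.image κ, ∑ l ∈ V with κ l = v, f l
      ≤ ∑ v ∈ V.image κ, c₀ * ((1 : ℝ) / 2) ^ v := by
        apply sum_le_sum
        intro v _
        calc ∑ l ∈ V with κ l = v, f l ≤ ∑ l ∈ V with κ l = v, w v := by
              apply sum_le_sum
              intro l hl
              rw [mem_filter] at hl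
              rw [← hl.2]
              exact h1 l hl.1
          _ = #(V.filter (fun l => κ l = v)) * w v := by
              rw [sum_const, nsmul_eq_mul]
          _ ≤ N v * w v := by
              apply mul_le_mul_of_nonneg_right _ (hw v)
              exact_mod_cast h2 v
          _ ≤ _ := h3 v
    _ = c₀ * ∑ v ∈ V.image κ, ((1 : ℝ) / 2) ^ v := by rw [mul_sum]
    _ ≤ c₀ * 2 := mul_le_mul_of_nonneg_left (sum_half_le _) hc₀
    _ = 2 * c₀ := by ring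

theorem rho2_eq (A B : ℤ) :
    rho2 A B * 2 ^ 633 * 2 ^ (30 * (lg (ht A B) - lg A.natAbs)) = z2 A B := by
  rw [rho2, z2]
  have e2 : (2 : ℝ) ^ 703 = 2 ^ 70 * 2 ^ 633 := by rw [← pow_add]
  rw [e2]
  by_cases hA : (A : ℝ) = 0
  · rw [hA]; simp
  · field_simp

theorem rho2_pos (A B : ℤ) (hA : 1 ≤ A) : 0 < rho2 A B := by
  have hApos : (0 : ℝ) < A := by exact_mod_cast hA
  rw [rho2]; positivity

theorem rho1_pos (T q : ℕ) (hq : 1 ≤ q) : 0 < rho1 T q := by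
  have hqpos : (0 : ℝ) < q := by exact_mod_cast hq
  have := yf_pos q hq
  rw [rho1]; positivity

theorem lg_mono {m n : ℕ} (h : m ≤ n) : lg m ≤ lg n := Nat.log_mono_right h

/-- sum of the potentials of the new lines -/
theorem sumTwo {ι : Type*} (i : ℕ) (t : ℝ)
    (good : ∀ A B C : ℤ, 1 ≤ A → ((2 : ℝ) ^ (32 * i))⁻¹ ≤ 2 * rho2 A B →
      rho2 A B ≤ |t - (-((B : ℝ) * Real.sqrt 2 + C) / A)|)
    (V : Finset ι) (A B C : ι → ℤ)
    (hinj : ∀ a ∈ V, ∀ b ∈ V, A a = A b → B a = B b → C a = C b → a = b)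
    (hA : ∀ l ∈ V, 1 ≤ A l)
    (hz : ∀ l ∈ V, ((2 : ℝ) ^ (32 * i))⁻¹ < z2 (A l) (B l))
    (hz' : ∀ l ∈ V, z2 (A l) (B l) ≤ 2 ^ 32 * ((2 : ℝ) ^ (32 * i))⁻¹)
    (hmeet : ∀ l ∈ V, ∃ y ∈ Set.Icc t (t + ((2 : ℝ) ^ (32 * i))⁻¹),
      |y - (-((B l : ℝ) * Real.sqrt 2 + C l) / A l)| < rho2 (A l) (B l)) :
    ∑ l ∈ V, (2 * rho2 (A l) (B l) * 2 ^ (32 * i)) ^ ((9 : ℝ) / 10) ≤
      2 * ((2 : ℝ) ^ 48)⁻¹ := by
  classical
  have hge : ∀ l ∈ V, lg (A l).natAbs ≤ lg (ht (A l) (B l)) := fun l _ => lg_mono (le_max_left _ _)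
  -- uniqueness of α
  have huniq : ∀ l ∈ V, ∀ l' ∈ V,
      lg (ht (A l) (B l)) - lg (A l).natAbs = lg (ht (A l') (B l')) - lg (A l').natAbs →
      lg (A l').natAbs ≤ lg (A l).natAbs := by
    intro l hl l' hl' heq
    by_contra hcon
    push Not at hcon
    set v := lg (ht (A l) (B l)) - lg (A l).natAbs with hv
    have hh1 := hge l hl
    have hh2 := hge l' hl'
    have e1 : lg (ht (A l) (B l)) = lg (A l).natAbs + v := by omega
    have e2 : lg (ht (A l') (B l')) = lg (A l').natAbs + v := by omega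
    set α := lg (A l).natAbs with hα
    set α' := lg (A l').natAbs with hα'
    have hApos : (0 : ℝ) < A l := by exact_mod_cast hA l hl
    have hApos' : (0 : ℝ) < A l' := by exact_mod_cast hA l' hl'
    have h1 := hz' l hl
    have h2 := hz l' hl'
    rw [z2, e1, ← hα] at h1
    rw [z2, e2, ← hα'] at h2
    have e3 : α + v - α = v := by omega
    have e4 : α' + v - α' = v := by omega
    rw [e3] at h1
    rw [e4] at h2
    have hA2 : (A l : ℝ) ≤ 2 ^ (32 * α + 32) := by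
      have h3 := lt_lg (A l).natAbs
      rw [← hα] at h3
      have h4 : (((A l).natAbs : ℕ) : ℝ) = (A l : ℝ) := by
        rw [Nat.cast_natAbs, abs_of_pos (by have := hA l hl; omega)]
      rw [h4] at h3
      exact h3.le
    have hA1 : (2 : ℝ) ^ (32 * α') ≤ (A l' : ℝ) := by
      have h3 := lg_le (A l').natAbs (by have := hA l' hl'; omega)
      rw [← hα'] at h3
      have h4 : (((A l').natAbs : ℕ) : ℝ) = (A l' : ℝ) := by
        rw [Nat.cast_natAbs, abs_of_pos (by have := hA l' hl'; omega)]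
      rwa [h4] at h3
    have h3 : ((2 : ℝ) ^ 70)⁻¹ * 2 ^ (30 * v) / (2 ^ (64 * (α' + v)) * A l') ≤
        ((2 : ℝ) ^ 70)⁻¹ * 2 ^ (30 * v) / (2 ^ (64 * (α' + v)) * 2 ^ (32 * α')) := by
      gcongr
    have h4 : ((2 : ℝ) ^ 70)⁻¹ * 2 ^ (30 * v) / (2 ^ (64 * (α + v)) * 2 ^ (32 * α + 32)) ≤
        ((2 : ℝ) ^ 70)⁻¹ * 2 ^ (30 * v) / (2 ^ (64 * (α + v)) * A l) := by
      gcongr
    have h5 : ((2 : ℝ) ^ 70)⁻¹ * 2 ^ (30 * v) / (2 ^ (64 * (α + v)) * 2 ^ (32 * α + 32)) <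
        2 ^ 32 * (((2 : ℝ) ^ 70)⁻¹ * 2 ^ (30 * v) / (2 ^ (64 * (α' + v)) * 2 ^ (32 * α'))) := by
      have h6 : (0 : ℝ) < 2 ^ 32 := by positivity
      have h7 := mul_lt_mul_of_pos_left (h2.trans_le h3) h6
      linarith
    rw [div_lt_iff₀ (by positivity)] at h5
    have h6 : 2 ^ 32 * (((2 : ℝ) ^ 70)⁻¹ * 2 ^ (30 * v) / (2 ^ (64 * (α' + v)) * 2 ^ (32 * α'))) *
        (2 ^ (64 * (α + v)) * 2 ^ (32 * α + 32)) =
        (((2 : ℝ) ^ 70)⁻¹ * 2 ^ (30 * v)) * (2 ^ (32 + (64 * (α + v) + (32 * α + 32))) /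
          2 ^ (64 * (α' + v) + 32 * α')) := by
      rw [pow_add _ 32 (64 * (α + v) + (32 * α + 32)), pow_add _ (64 * (α + v)) (32 * α + 32),
        pow_add _ (64 * (α' + v)) (32 * α')]
      field_simp
    rw [h6] at h5
    have h7 : (1 : ℝ) < 2 ^ (32 + (64 * (α + v) + (32 * α + 32))) / 2 ^ (64 * (α' + v) + 32 * α') := by
      have h8 : (0 : ℝ) < ((2 : ℝ) ^ 70)⁻¹ * 2 ^ (30 * v) := by positivity
      by_contra hc
      push Not at hc
      have := mul_le_mul_of_nonneg_left hc h8.le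
      rw [mul_one] at this
      linarith
    rw [one_lt_div (by positivity)] at h7
    have := (pow_lt_pow_iff_right₀ (by norm_num : (1 : ℝ) < 2)).mp h7
    omega
  apply sum_by_class V _ (fun l => lg (ht (A l) (B l)) - lg (A l).natAbs)
    (fun v => (2 ^ (245 + 10 * v) + 1) ^ 2) (fun v => ((2 : ℝ) ^ (9 * (60 + 3 * v)))⁻¹) _
    (by positivity) (fun v => by positivity)
  · intro l hl
    show (2 * rho2 (A l) (B l) * 2 ^ (32 * i)) ^ ((9 : ℝ) / 10) ≤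
      ((2 : ℝ) ^ (9 * (60 + 3 * (lg (ht (A l) (B l)) - lg (A l).natAbs))))⁻¹
    rw [← rpow_aux]
    have hr := rho2_pos (A l) (B l) (hA l hl)
    apply Real.rpow_le_rpow (by positivity) _ (by norm_num)
    have h1 := rho2_eq (A l) (B l)
    have h2 := hz' l hl
    rw [← h1] at h2
    set v := lg (ht (A l) (B l)) - lg (A l).natAbs with hv
    rw [← one_div, le_div_iff₀ (by positivity)]
    have e1 : (2 : ℝ) ^ 633 = 2 ^ 33 * 2 ^ 600 := by rw [← pow_add]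
    have e2 : (2 : ℝ) ^ (10 * (60 + 3 * v)) = 2 ^ 600 * 2 ^ (30 * v) := by
      rw [← pow_add]; congr 1; ring
    rw [e1] at h2
    rw [e2]
    have h3 : rho2 (A l) (B l) * (2 ^ 33 * 2 ^ 600) * 2 ^ (30 * v) * 2 ^ (32 * i) ≤ 2 ^ 32 := by
      have := mul_le_mul_of_nonneg_right h2 (show (0 : ℝ) ≤ 2 ^ (32 * i) by positivity)
      rw [mul_assoc (2 ^ 32 : ℝ), inv_mul_cancel₀ (by positivity), mul_one] at this
      exact this
    have h4 : (2 : ℝ) ^ 33 = 2 ^ 32 * 2 := by norm_num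
    rw [h4] at h3
    have h5 : (2 * rho2 (A l) (B l) * 2 ^ (32 * i) * (2 ^ 600 * 2 ^ (30 * v))) * 2 ^ 32 ≤ 1 * 2 ^ 32 := by
      linarith
    exact le_of_mul_le_mul_right h5 (by positivity)
  · intro v
    by_cases hne : (V.filter (fun l => lg (ht (A l) (B l)) - lg (A l).natAbs = v)).Nonempty
    swap
    · rw [not_nonempty_iff_eq_empty] at hne
      rw [hne]; simp
    obtain ⟨l₀, hl₀⟩ := hne
    rw [mem_filter] at hl₀
    apply countTwo i t good (V.filter (fun l => lg (ht (A l) (B l)) - lg (A l).natAbs = v)) A B C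
      _ (lg (A l₀).natAbs) v
    · intro l hl
      exact hA l (mem_filter.mp hl).1
    · intro l hl
      rw [mem_filter] at hl
      apply le_antisymm
      · exact huniq l₀ hl₀.1 l hl.1 (by rw [hl.2, hl₀.2])
      · exact huniq l hl.1 l₀ hl₀.1 (by rw [hl.2, hl₀.2])
    · intro l hl
      rw [mem_filter] at hl
      have h1 : lg (A l).natAbs = lg (A l₀).natAbs := by
        apply le_antisymm
        · exact huniq l₀ hl₀.1 l hl.1 (by rw [hl.2, hl₀.2])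
        · exact huniq l hl.1 l₀ hl₀.1 (by rw [hl.2, hl₀.2])
      have h2 := hge l hl.1
      have h3 := hl.2
      omega
    · intro l hl
      exact hz l (mem_filter.mp hl).1
    · intro l hl
      exact hmeet l (mem_filter.mp hl).1
    · intro a ha b hb
      exact hinj a (mem_filter.mp ha).1 b (mem_filter.mp hb).1
  · intro v
    have h1 : (((2 ^ (245 + 10 * v) + 1) ^ 2 : ℕ) : ℝ) ≤ 2 ^ (492 + 20 * v) := by
      push_cast
      have e : (2 : ℝ) ^ (492 + 20 * v) = (2 * 2 ^ (245 + 10 * v)) ^ 2 := by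
        rw [← pow_succ', ← pow_mul]; congr 1; ring
      rw [e]
      have : (1 : ℝ) ≤ 2 ^ (245 + 10 * v) := one_le_pow₀ (by norm_num)
      apply pow_le_pow_left₀ (by positivity)
      linarith
    calc (((2 ^ (245 + 10 * v) + 1) ^ 2 : ℕ) : ℝ) * ((2 : ℝ) ^ (9 * (60 + 3 * v)))⁻¹
        ≤ 2 ^ (492 + 20 * v) * ((2 : ℝ) ^ (9 * (60 + 3 * v)))⁻¹ := by gcongr
      _ ≤ ((2 : ℝ) ^ 48)⁻¹ * (1 / 2) ^ v := by
          rw [one_div, inv_pow, ← mul_inv, ← pow_add, ← div_eq_mul_inv, div_le_iff₀ (by positivity),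
            ← div_eq_inv_mul, le_div_iff₀ (by positivity), ← pow_add]
          apply two_pow_le
          omega

theorem activity (T q i : ℕ) (hq : 1 ≤ q) (hqT : q < 2 ^ (32 * T))
    (hz : ((2 : ℝ) ^ (32 * i))⁻¹ < z1 T q) (hz' : z1 T q ≤ 2 ^ 32 * ((2 : ℝ) ^ (32 * i))⁻¹) :
    6 * T + 68 < 32 * i ∧ 32 * i ≤ 64 * T + 101 := by
  have hqpos : (0 : ℝ) < q := by exact_mod_cast hq
  have hqT' : (q : ℝ) ≤ 2 ^ (32 * T) := by exact_mod_cast hqT.le
  have hy := yf_pos q hq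
  have hyl := yf_lower q hq
  have hyh := yf_le_half q
  constructor
  · rw [z1, lt_div_iff₀ (by positivity), ← one_div, one_div, ← div_eq_inv_mul,
      div_lt_iff₀ (by positivity)] at hz
    have h1 : (2 : ℝ) ^ (32 * T) * (1 / 4) ≤ 2 ^ (32 * T) * (yf q * q) := by gcongr
    have h2 : (2 : ℝ) ^ (26 * (T - lg q)) ≤ 2 ^ (26 * T) := two_pow_le (by omega)
    have h3 : (2 : ℝ) ^ (32 * T) * (1 / 4) < ((2 : ℝ) ^ 70)⁻¹ * 2 ^ (26 * T) * 2 ^ (32 * i) := by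
      refine lt_of_le_of_lt h1 (lt_of_lt_of_le hz ?_)
      gcongr
    have h4 : (2 : ℝ) ^ (32 * T + 68) < 2 ^ (26 * T + 32 * i) := by
      rw [pow_add, pow_add]
      have e : (2 : ℝ) ^ 70 = 2 ^ 68 * 4 := by norm_num
      have h5 := mul_lt_mul_of_pos_right h3 (show (0 : ℝ) < 2 ^ 70 by positivity)
      have h6 : ((2 : ℝ) ^ 70)⁻¹ * 2 ^ (26 * T) * 2 ^ (32 * i) * 2 ^ 70 = 2 ^ (26 * T) * 2 ^ (32 * i) := by
        field_simp
      rw [h6, e] at h5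
      linarith
    have := (pow_lt_pow_iff_right₀ (by norm_num : (1 : ℝ) < 2)).mp h4
    omega
  · rw [z1, div_le_iff₀ (by positivity)] at hz'
    have h1 : 2 ^ 32 * ((2 : ℝ) ^ (32 * i))⁻¹ * (2 ^ (32 * T) * (yf q * q)) ≤
        2 ^ 32 * ((2 : ℝ) ^ (32 * i))⁻¹ * (2 ^ (32 * T) * (1 / 2 * 2 ^ (32 * T))) := by gcongr
    have h2 : (1 : ℝ) ≤ 2 ^ (26 * (T - lg q)) := one_le_pow₀ (by norm_num)
    have h3 : ((2 : ℝ) ^ 70)⁻¹ * 1 ≤ ((2 : ℝ) ^ 70)⁻¹ * 2 ^ (26 * (T - lg q)) := by gcongr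
    have h4 := (h3.trans hz').trans h1
    have h5 : (2 : ℝ) ^ (32 * i) ≤ 2 ^ (64 * T + 101) := by
      have h6 := mul_le_mul_of_nonneg_right h4 (show (0 : ℝ) ≤ 2 ^ 70 * 2 ^ (32 * i) by positivity)
      have e1 : ((2 : ℝ) ^ 70)⁻¹ * 1 * (2 ^ 70 * 2 ^ (32 * i)) = 2 ^ (32 * i) := by field_simp
      have e2 : 2 ^ 32 * ((2 : ℝ) ^ (32 * i))⁻¹ * (2 ^ (32 * T) * (1 / 2 * 2 ^ (32 * T))) *
          (2 ^ 70 * 2 ^ (32 * i)) = 2 ^ 101 * (2 ^ (32 * T) * 2 ^ (32 * T)) := by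
        field_simp
      rw [e1, e2, ← pow_add, ← pow_add] at h6
      refine h6.trans (two_pow_le (by omega))
    have := (pow_le_pow_iff_right₀ (by norm_num : (1 : ℝ) < 2)).mp h5
    exact this

theorem sumOne {ι : Type*} (T i : ℕ) (t : ℝ)
    (good : ∀ (q : ℕ) (p : ℤ), 1 ≤ q → q < 2 ^ (32 * T) → ((2 : ℝ) ^ (32 * i))⁻¹ ≤ 2 * rho1 T q →
      rho1 T q ≤ |t - p / q|)
    (V : Finset ι) (q : ι → ℕ) (p : ι → ℤ)
    (hinj : ∀ a ∈ V, ∀ b ∈ V, q a = q b → p a = p b → a = b)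
    (hq : ∀ l ∈ V, 1 ≤ q l) (hqT : ∀ l ∈ V, q l < 2 ^ (32 * T))
    (hz : ∀ l ∈ V, ((2 : ℝ) ^ (32 * i))⁻¹ < z1 T (q l))
    (hz' : ∀ l ∈ V, z1 T (q l) ≤ 2 ^ 32 * ((2 : ℝ) ^ (32 * i))⁻¹)
    (hmeet : ∀ l ∈ V, ∃ y ∈ Set.Icc t (t + ((2 : ℝ) ^ (32 * i))⁻¹),
      |y - p l / q l| < rho1 T (q l)) :
    ∑ l ∈ V, (2 * rho1 T (q l) * 2 ^ (32 * i)) ^ ((9 : ℝ) / 10) ≤ 2 * ((2 : ℝ) ^ 37)⁻¹ := by
  classical
  have hlgT : ∀ l ∈ V, lg (q l) < T := by
    intro l hl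
    have h1 := lg_le (q l) (by have := hq l hl; omega)
    have h2 : (q l : ℝ) < 2 ^ (32 * T) := by exact_mod_cast hqT l hl
    have := (pow_lt_pow_iff_right₀ (by norm_num : (1 : ℝ) < 2)).mp (h1.trans_lt h2)
    omega
  apply sum_by_class V _ (fun l => T - lg (q l))
    (fun k => (2 ^ (480 + 4 * k) + 1) ^ 2) (fun k => ((2 : ℝ) ^ (9 * (111 + k)))⁻¹) _
    (by positivity) (fun v => by positivity)
  · intro l hl
    show (2 * rho1 T (q l) * 2 ^ (32 * i)) ^ ((9 : ℝ) / 10) ≤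
      ((2 : ℝ) ^ (9 * (111 + (T - lg (q l)))))⁻¹
    rw [← rpow_aux]
    have hr := rho1_pos T (q l) (hq l hl)
    apply Real.rpow_le_rpow (by positivity) _ (by norm_num)
    have h1 := rho1_eq T (q l)
    have h2 := hz' l hl
    rw [← h1] at h2
    set k := T - lg (q l) with hk
    rw [← one_div, le_div_iff₀ (by positivity)]
    have e1 : (2 : ℝ) ^ 1145 = 2 ^ 33 * 2 ^ 2 * 2 ^ 1110 := by rw [← pow_add, ← pow_add]
    have e2 : (2 : ℝ) ^ (10 * (111 + k)) = 2 ^ 1110 * 2 ^ (10 * k) := by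
      rw [← pow_add]; congr 1; ring
    rw [e1] at h2
    rw [e2]
    have h3 : rho1 T (q l) * (2 ^ 33 * 2 ^ 2 * 2 ^ 1110) * 2 ^ (10 * k) * 2 ^ (32 * i) ≤ 2 ^ 32 := by
      have := mul_le_mul_of_nonneg_right h2 (show (0 : ℝ) ≤ 2 ^ (32 * i) by positivity)
      rw [mul_assoc (2 ^ 32 : ℝ), inv_mul_cancel₀ (by positivity), mul_one] at this
      exact this
    have h4 : (2 : ℝ) ^ 33 = 2 ^ 32 * 2 := by norm_num
    rw [h4] at h3
    have h6 : (0 : ℝ) ≤ 2 * rho1 T (q l) * 2 ^ (32 * i) * (2 ^ 1110 * 2 ^ (10 * k)) := by positivity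
    have h5 : (2 * rho1 T (q l) * 2 ^ (32 * i) * (2 ^ 1110 * 2 ^ (10 * k))) * 2 ^ 32 ≤ 1 * 2 ^ 32 := by
      have e3 : rho1 T (q l) * (2 ^ 32 * 2 * 2 ^ 2 * 2 ^ 1110) * 2 ^ (10 * k) * 2 ^ (32 * i) =
        4 * ((2 * rho1 T (q l) * 2 ^ (32 * i) * (2 ^ 1110 * 2 ^ (10 * k))) * 2 ^ 32) := by ring
      rw [e3] at h3
      have h7 : 0 ≤ (2 * rho1 T (q l) * 2 ^ (32 * i) * (2 ^ 1110 * 2 ^ (10 * k))) * 2 ^ 32 := by
        positivity
      linarith
    exact le_of_mul_le_mul_right h5 (by positivity)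
  · intro k
    by_cases hne : (V.filter (fun l => T - lg (q l) = k)).Nonempty
    swap
    · rw [not_nonempty_iff_eq_empty] at hne
      rw [hne]; simp
    obtain ⟨l₀, hl₀⟩ := hne
    rw [mem_filter] at hl₀
    have h0 := hlgT l₀ hl₀.1
    have h0' := hl₀.2
    apply countOne T i t good (V.filter (fun l => T - lg (q l) = k)) q p _
      (lg (q l₀)) k (by omega)
    · intro l hl
      exact hq l (mem_filter.mp hl).1
    · intro l hl
      rw [mem_filter] at hl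
      have h1 := hlgT l hl.1
      have h2 := hl.2
      omega
    · intro l hl
      exact hz l (mem_filter.mp hl).1
    · intro l hl
      exact hz' l (mem_filter.mp hl).1
    · intro l hl
      exact hmeet l (mem_filter.mp hl).1
    · intro a ha b hb
      exact hinj a (mem_filter.mp ha).1 b (mem_filter.mp hb).1
  · intro k
    have h1 : (((2 ^ (480 + 4 * k) + 1) ^ 2 : ℕ) : ℝ) ≤ 2 ^ (962 + 8 * k) := by
      push_cast
      have e : (2 : ℝ) ^ (962 + 8 * k) = (2 * 2 ^ (480 + 4 * k)) ^ 2 := by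
        rw [← pow_succ', ← pow_mul]; congr 1; ring
      rw [e]
      have : (1 : ℝ) ≤ 2 ^ (480 + 4 * k) := one_le_pow₀ (by norm_num)
      apply pow_le_pow_left₀ (by positivity)
      linarith
    calc (((2 ^ (480 + 4 * k) + 1) ^ 2 : ℕ) : ℝ) * ((2 : ℝ) ^ (9 * (111 + k)))⁻¹
        ≤ 2 ^ (962 + 8 * k) * ((2 : ℝ) ^ (9 * (111 + k)))⁻¹ := by gcongr
      _ ≤ ((2 : ℝ) ^ 37)⁻¹ * (1 / 2) ^ k := by
          rw [one_div, inv_pow, ← mul_inv, ← pow_add, ← div_eq_mul_inv, div_le_iff₀ (by positivity),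
            ← div_eq_inv_mul, le_div_iff₀ (by positivity), ← pow_add]
          apply two_pow_le
          omega

end Pool.Agent.Helper92.Bad
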