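import Mathlib
import Pool.Agent.Helper92.Assemble

set_option autoImplicit false

namespace Pool.Agent.Helper92.Bad

open Finset

/-- indices of the multiplicative conditions at the sparse scales `2^(32*16^(n+1))` -/
abbrev Idx1 : Type := {x : ℕ × ℕ × ℤ // 1 ≤ x.2.1 ∧ x.2.1 < 2 ^ (32 * 16 ^ (x.1 + 1))}

/-- indices of the lines -/
abbrev Idx2 : Type := {x : ℤ × ℤ × ℤ // 1 ≤ x.1}

noncomputable def xx : Idx1 ⊕ Idx2 → ℝ :=
  Sum.elim (fun l => (l.1.2.2 : ℝ) / l.1.2.1)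
    (fun l => -((l.1.2.1 : ℝ) * Real.sqrt 2 + l.1.2.2) / l.1.1)

noncomputable def rr : Idx1 ⊕ Idx2 → ℝ :=
  Sum.elim (fun l => rho1 (16 ^ (l.1.1 + 1)) l.1.2.1) (fun l => rho2 l.1.1 l.1.2.1)

noncomputable def zz : Idx1 ⊕ Idx2 → ℝ :=
  Sum.elim (fun l => z1 (16 ^ (l.1.1 + 1)) l.1.2.1) (fun l => z2 l.1.1 l.1.2.1)

theorem cast32 : ((2 ^ 32 : ℕ) : ℝ) = 2 ^ 32 := by
  rw [Nat.cast_pow, Nat.cast_ofNat]

theorem rr_pos (l : Idx1 ⊕ Idx2) : 0 < rr l := by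
  rcases l with l | l
  · exact rho1_pos _ _ l.2.1
  · exact rho2_pos _ _ l.2

theorem rr_lt_zz (l : Idx1 ⊕ Idx2) : 2 * ((2 ^ 32 : ℕ) : ℝ) * rr l < zz l := by
  rcases l with l | l
  · show 2 * ((2 ^ 32 : ℕ) : ℝ) * rho1 _ _ < z1 _ _
    rw [← rho1_eq]
    have hr := rho1_pos (16 ^ (l.1.1 + 1)) l.1.2.1 l.2.1
    set r := rho1 (16 ^ (l.1.1 + 1)) l.1.2.1
    set k := 16 ^ (l.1.1 + 1) - lg l.1.2.1
    have e1 : (2 : ℝ) ^ 33 < 2 ^ 1145 := two_pow_lt (by norm_num)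
    have e2 : (1 : ℝ) ≤ 2 ^ (10 * k) := one_le_pow₀ (by norm_num)
    have e3 : 2 * ((2 ^ 32 : ℕ) : ℝ) * r = r * 2 ^ 33 := by push_cast; ring
    rw [e3]
    have e4 : r * 2 ^ 33 < r * 2 ^ 1145 := mul_lt_mul_of_pos_left e1 hr
    have e5 : 0 ≤ r * 2 ^ 1145 := mul_nonneg hr.le (by positivity)
    have e6 : r * 2 ^ 1145 * 1 ≤ r * 2 ^ 1145 * 2 ^ (10 * k) := mul_le_mul_of_nonneg_left e2 e5
    rw [mul_one] at e6
    exact e4.trans_le e6
  · show 2 * ((2 ^ 32 : ℕ) : ℝ) * rho2 _ _ < z2 _ _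
    rw [← rho2_eq]
    have hr := rho2_pos l.1.1 l.1.2.1 l.2
    set r := rho2 l.1.1 l.1.2.1
    set k := lg (ht l.1.1 l.1.2.1) - lg l.1.1.natAbs
    have e1 : (2 : ℝ) ^ 33 < 2 ^ 633 := two_pow_lt (by norm_num)
    have e2 : (1 : ℝ) ≤ 2 ^ (30 * k) := one_le_pow₀ (by norm_num)
    have e3 : 2 * ((2 ^ 32 : ℕ) : ℝ) * r = r * 2 ^ 33 := by push_cast; ring
    rw [e3]
    have e4 : r * 2 ^ 33 < r * 2 ^ 633 := mul_lt_mul_of_pos_left e1 hr
    have e5 : 0 ≤ r * 2 ^ 633 := mul_nonneg hr.le (by positivity)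
    have e6 : r * 2 ^ 633 * 1 ≤ r * 2 ^ 633 * 2 ^ (30 * k) := mul_le_mul_of_nonneg_left e2 e5
    rw [mul_one] at e6
    exact e4.trans_le e6

theorem zz_le_one (l : Idx1 ⊕ Idx2) : zz l ≤ 1 := by
  rcases l with l | l
  · show z1 _ _ ≤ 1
    have hq := l.2.1
    have hqpos : (0 : ℝ) < l.1.2.1 := by exact_mod_cast hq
    have hy := yf_pos l.1.2.1 hq
    have hyl := yf_lower l.1.2.1 hq
    rw [z1, div_le_one (by positivity)]
    set T := 16 ^ (l.1.1 + 1)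
    have h2 : (2 : ℝ) ^ (26 * (T - lg l.1.2.1)) ≤ 2 ^ (32 * T) := two_pow_le (by omega)
    have h3 : ((2 : ℝ) ^ 70)⁻¹ ≤ 1 / 4 := by norm_num
    calc ((2 : ℝ) ^ 70)⁻¹ * 2 ^ (26 * (T - lg l.1.2.1)) ≤ 1 / 4 * 2 ^ (32 * T) := by gcongr
      _ = 2 ^ (32 * T) * (1 / 4) := by ring
      _ ≤ _ := by gcongr
  · show z2 _ _ ≤ 1
    have hA := l.2
    have hApos : (0 : ℝ) < l.1.1 := by exact_mod_cast hA
    have hA1 : (1 : ℝ) ≤ l.1.1 := by exact_mod_cast hA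
    rw [z2, div_le_one (by positivity)]
    set β := lg (ht l.1.1 l.1.2.1)
    have h2 : (2 : ℝ) ^ (30 * (β - lg l.1.1.natAbs)) ≤ 2 ^ (64 * β) := two_pow_le (by omega)
    have h3 : ((2 : ℝ) ^ 70)⁻¹ ≤ 1 := by norm_num
    calc ((2 : ℝ) ^ 70)⁻¹ * 2 ^ (30 * (β - lg l.1.1.natAbs)) ≤ 1 * 2 ^ (64 * β) := by gcongr
      _ = 2 ^ (64 * β) * 1 := by ring
      _ ≤ _ := by gcongr

theorem pow_cast (i : ℕ) : ((2 ^ 32 : ℕ) : ℝ) ^ i = 2 ^ (32 * i) := by
  rw [cast32, ← pow_mul]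

theorem exists_point : ∃ ξ : ℝ, ∀ l : Idx1 ⊕ Idx2, rr l ≤ |ξ - xx l| := by
  classical
  apply Potential.potential_lemma xx rr zz (2 ^ 32) (by norm_num) (9 / 10) (((2 : ℝ) ^ 30)⁻¹)
    (by norm_num) _ (by positivity) _ rr_pos rr_lt_zz zz_le_one
  · -- the main estimate
    intro i t good V hV
    rw [pow_cast] at good hV
    rw [pow_cast]
    have htI : t ∈ Set.Icc t (t + ((2 : ℝ) ^ (32 * i))⁻¹) := by
      constructor
      · exact le_rfl
      · have : (0 : ℝ) ≤ ((2 : ℝ) ^ (32 * i))⁻¹ := by positivity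
        linarith
    have hsplit : ∑ l ∈ V, (2 * rr l * 2 ^ (32 * i)) ^ ((9 : ℝ) / 10) =
        ∑ l ∈ V.toLeft, (2 * rho1 (16 ^ (l.1.1 + 1)) l.1.2.1 * 2 ^ (32 * i)) ^ ((9 : ℝ) / 10) +
        ∑ l ∈ V.toRight, (2 * rho2 l.1.1 l.1.2.1 * 2 ^ (32 * i)) ^ ((9 : ℝ) / 10) := by
      conv_lhs => rw [← Finset.toLeft_disjSum_toRight (u := V)]
      rw [Finset.sum_disjSum]
      rfl
    rw [hsplit]
    have hL : ∑ l ∈ V.toLeft, (2 * rho1 (16 ^ (l.1.1 + 1)) l.1.2.1 * 2 ^ (32 * i)) ^ ((9 : ℝ) / 10)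
        ≤ 2 * ((2 : ℝ) ^ 37)⁻¹ := by
      by_cases hne : V.toLeft.Nonempty
      swap
      · rw [not_nonempty_iff_eq_empty] at hne
        rw [hne, sum_empty]; positivity
      obtain ⟨l₀, hl₀⟩ := hne
      have hact : ∀ l ∈ V.toLeft, 6 * 16 ^ (l.1.1 + 1) + 68 < 32 * i ∧
          32 * i ≤ 64 * 16 ^ (l.1.1 + 1) + 101 := by
        intro l hl
        rw [mem_toLeft] at hl
        have h1 := hV _ hl
        exact activity _ _ i l.2.1 l.2.2 h1.1 (by have := h1.2.1; rw [cast32] at this; exact this)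
      have hn : ∀ l ∈ V.toLeft, l.1.1 = l₀.1.1 := by
        intro l hl
        have h1 := hact l hl
        have h2 := hact l₀ hl₀
        have aux : ∀ a b : ℕ, a < b → 6 * 16 ^ (b + 1) + 68 < 32 * i →
            32 * i ≤ 64 * 16 ^ (a + 1) + 101 → False := by
          intro a b hab h3 h4
          have h5 : 16 ^ (a + 1 + 1) ≤ 16 ^ (b + 1) := Nat.pow_le_pow_right (by norm_num) (by omega)
          rw [pow_succ 16 (a + 1)] at h5
          have h6 : 16 ^ 1 ≤ 16 ^ (a + 1) := Nat.pow_le_pow_right (by norm_num) (by omega)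
          omega
        rcases lt_trichotomy l.1.1 l₀.1.1 with h | h | h
        · exact (aux _ _ h h2.1 h1.2).elim
        · exact h
        · exact (aux _ _ h h1.1 h2.2).elim
      set T := 16 ^ (l₀.1.1 + 1) with hT
      have hcongr : ∑ l ∈ V.toLeft, (2 * rho1 (16 ^ (l.1.1 + 1)) l.1.2.1 * 2 ^ (32 * i)) ^
          ((9 : ℝ) / 10) = ∑ l ∈ V.toLeft, (2 * rho1 T l.1.2.1 * 2 ^ (32 * i)) ^ ((9 : ℝ) / 10) := by
        apply sum_congr rfl
        intro l hl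
        rw [hn l hl]
      rw [hcongr]
      apply sumOne T i t _ V.toLeft (fun l => l.1.2.1) (fun l => l.1.2.2)
      · intro a ha b hb h1 h2
        apply Subtype.ext
        apply Prod.ext
        · rw [hn a ha, hn b hb]
        · exact Prod.ext h1 h2
      · intro l _
        exact l.2.1
      · intro l hl
        have := l.2.2
        rw [hn l hl] at this
        exact this
      · intro l hl
        have hl' := hl
        rw [mem_toLeft] at hl'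
        have h1 := (hV _ hl').1
        have h2 : zz (Sum.inl l) = z1 T l.1.2.1 := by
          show z1 (16 ^ (l.1.1 + 1)) l.1.2.1 = _
          rw [hn l hl]
        rw [h2] at h1
        exact h1
      · intro l hl
        have hl' := hl
        rw [mem_toLeft] at hl'
        have h1 := (hV _ hl').2.1
        have h2 : zz (Sum.inl l) = z1 T l.1.2.1 := by
          show z1 (16 ^ (l.1.1 + 1)) l.1.2.1 = _
          rw [hn l hl]
        rw [h2, cast32] at h1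
        exact h1
      · intro l hl
        have hl' := hl
        rw [mem_toLeft] at hl'
        obtain ⟨y, hy, hyx⟩ := (hV _ hl').2.2
        refine ⟨y, hy, ?_⟩
        have h2 : rr (Sum.inl l) = rho1 T l.1.2.1 := by
          show rho1 (16 ^ (l.1.1 + 1)) l.1.2.1 = _
          rw [hn l hl]
        rw [h2] at hyx
        exact hyx
      · intro q p hq hqT hle
        exact good (Sum.inl ⟨(l₀.1.1, q, p), hq, hqT⟩) hle t htI
    have hR : ∑ l ∈ V.toRight, (2 * rho2 l.1.1 l.1.2.1 * 2 ^ (32 * i)) ^ ((9 : ℝ) / 10)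
        ≤ 2 * ((2 : ℝ) ^ 48)⁻¹ := by
      apply sumTwo i t _ V.toRight (fun l => l.1.1) (fun l => l.1.2.1) (fun l => l.1.2.2)
      · intro a _ b _ h1 h2 h3
        apply Subtype.ext
        exact Prod.ext h1 (Prod.ext h2 h3)
      · intro l _
        exact l.2
      · intro l hl
        rw [mem_toRight] at hl
        exact (hV _ hl).1
      · intro l hl
        rw [mem_toRight] at hl
        have h1 := (hV _ hl).2.1
        rw [cast32] at h1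
        exact h1
      · intro l hl
        rw [mem_toRight] at hl
        exact (hV _ hl).2.2
      · intro A B C hA hle
        exact good (Sum.inr ⟨(A, B, C), hA⟩) hle t htI
    have : 2 * ((2 : ℝ) ^ 37)⁻¹ + 2 * ((2 : ℝ) ^ 48)⁻¹ ≤ ((2 : ℝ) ^ 30)⁻¹ / 2 := by norm_num
    linarith
  · -- 4 R^c ≤ R
    have e : (((2 ^ 32 : ℕ) : ℝ)) = (2 : ℝ) ^ (32 : ℝ) := by
      rw [cast32, ← Real.rpow_natCast]; norm_num
    rw [e, ← Real.rpow_mul (by norm_num)]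
    have e2 : (4 : ℝ) = 2 ^ (2 : ℝ) := by
      rw [show (2 : ℝ) = ((2 : ℕ) : ℝ) by norm_num, Real.rpow_natCast]; norm_num
    rw [e2, ← Real.rpow_add (by norm_num)]
    apply Real.rpow_le_rpow_of_exponent_le (by norm_num)
    norm_num
  · have e : (((2 ^ 32 : ℕ) : ℝ)) = (2 : ℝ) ^ (32 : ℝ) := by
      rw [cast32, ← Real.rpow_natCast]; norm_num
    rw [e, Real.inv_rpow (by positivity), ← Real.rpow_mul (by norm_num)]
    apply inv_anti₀ (by positivity)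
    rw [← Real.rpow_natCast]
    apply Real.rpow_le_rpow_of_exponent_le (by norm_num)
    norm_num

/-- lower bound for linear forms with coefficient bound -/
theorem form_lower (ξ : ℝ) (hξ : ∀ l : Idx1 ⊕ Idx2, rr l ≤ |ξ - xx l|) (A B C : ℤ) (H : ℕ)
    (hH : 1 ≤ H) (hA : |A| ≤ H) (hB : |B| ≤ H) (hAB : ¬ (A = 0 ∧ B = 0)) :
    ((2 : ℝ) ^ 703)⁻¹ ≤ |(A : ℝ) * ξ + B * Real.sqrt 2 + C| * (H : ℝ) ^ 2 := by
  have hHpos : (1 : ℝ) ≤ H := by exact_mod_cast hH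
  have main : ∀ A B C : ℤ, 1 ≤ A → |A| ≤ H → |B| ≤ H →
      ((2 : ℝ) ^ 703)⁻¹ ≤ |(A : ℝ) * ξ + B * Real.sqrt 2 + C| * (H : ℝ) ^ 2 := by
    intro A B C hA1 hA hB
    have hApos : (0 : ℝ) < A := by exact_mod_cast hA1
    have h1 := hξ (Sum.inr ⟨(A, B, C), hA1⟩)
    have h2 : rho2 A B ≤ |ξ - (-((B : ℝ) * Real.sqrt 2 + C) / A)| := h1
    have h3 : rho2 A B * A ≤ |(A : ℝ) * ξ + B * Real.sqrt 2 + C| := by
      have e : |ξ - (-((B : ℝ) * Real.sqrt 2 + C) / A)| * A =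
            |(A : ℝ) * ξ + B * Real.sqrt 2 + C| := by
          rw [← abs_of_pos hApos, ← abs_mul, abs_of_pos hApos]
          congr 1
          field_simp
          ring
      rw [← e]
      gcongr
    have h4 : rho2 A B * A = ((2 : ℝ) ^ 703)⁻¹ / 2 ^ (64 * lg (ht A B)) := by
      rw [rho2]; field_simp
    rw [h4] at h3
    have h5 : (2 : ℝ) ^ (64 * lg (ht A B)) ≤ (H : ℝ) ^ 2 := by
      have h6 := lg_le (ht A B) (by
        have : A.natAbs ≤ ht A B := le_max_left _ _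
        omega)
      have h7 : ht A B ≤ H := by
        rw [Int.abs_eq_natAbs] at hA hB
        apply max_le
        · exact_mod_cast hA
        · exact_mod_cast hB
      have h8 : ((ht A B : ℕ) : ℝ) ≤ H := by exact_mod_cast h7
      have e : (2 : ℝ) ^ (64 * lg (ht A B)) = (2 ^ (32 * lg (ht A B))) ^ 2 := by
        rw [← pow_mul]; congr 1; ring
      rw [e]
      exact pow_le_pow_left₀ (by positivity) (h6.trans h8) 2
    rw [div_le_iff₀ (by positivity)] at h3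
    exact h3.trans (mul_le_mul_of_nonneg_left h5 (abs_nonneg _))
  rcases lt_trichotomy A 0 with h | h | h
  · have := main (-A) (-B) (-C) (by omega) (by rwa [abs_neg]) (by rwa [abs_neg])
    have e : ((-A : ℤ) : ℝ) * ξ + ((-B : ℤ) : ℝ) * Real.sqrt 2 + ((-C : ℤ) : ℝ) =
      -((A : ℝ) * ξ + B * Real.sqrt 2 + C) := by push_cast; ring
    rw [e, abs_neg] at this
    exact this
  · have hB0 : B ≠ 0 := fun h' => hAB ⟨h, h'⟩
    have h1 := sqrt_two_bad B C hB0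
    rw [h]
    simp only [Int.cast_zero, zero_mul, zero_add]
    have h2 : |(B : ℝ)| ≤ (H : ℝ) ^ 2 := by
      have h3 : |(B : ℝ)| ≤ H := by
        rw [← Int.cast_abs]; exact_mod_cast hB
      nlinarith
    have h3 : ((2 : ℝ) ^ 703)⁻¹ ≤ 1 / 4 := by
      have : ((2 : ℝ) ^ 703)⁻¹ ≤ ((2 : ℝ) ^ 2)⁻¹ := inv_anti₀ (by positivity) (two_pow_le (by norm_num))
      refine this.trans ?_
      norm_num
    calc ((2 : ℝ) ^ 703)⁻¹ ≤ 1 / 4 := h3
      _ ≤ |(B : ℝ)| * |(B : ℝ) * Real.sqrt 2 + C| := h1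
      _ ≤ (H : ℝ) ^ 2 * |(B : ℝ) * Real.sqrt 2 + C| := by gcongr
      _ = _ := by ring
  · exact main A B C (by omega) hA hB

/-- a congruence pigeonhole -/
theorem thue (q : ℕ) (hq : 1 ≤ q) (p r : ℤ) :
    ∃ A B C : ℤ, |A| ≤ Nat.sqrt q ∧ |B| ≤ Nat.sqrt q ∧ ¬ (A = 0 ∧ B = 0) ∧
      A * p + B * r + C * q = 0 := by
  classical
  have : NeZero q := ⟨by omega⟩
  set H := Nat.sqrt q with hH
  have hcard : #(Finset.univ : Finset (ZMod q)) < #(range (H + 1) ×ˢ range (H + 1)) := by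
    rw [card_univ, ZMod.card, card_product, card_range]
    exact Nat.lt_succ_sqrt q
  obtain ⟨a, ha, b, hb, hab, heq⟩ := exists_ne_map_eq_of_card_lt_of_maps_to hcard
    (f := fun x : ℕ × ℕ => ((((x.1 : ℤ) * p + (x.2 : ℤ) * r : ℤ)) : ZMod q))
    (fun _ _ => Finset.mem_coe.mpr (mem_univ _))
  simp only [mem_product, mem_range] at ha hb
  rw [← sub_eq_zero, ← Int.cast_sub, ZMod.intCast_zmod_eq_zero_iff_dvd] at heq
  obtain ⟨c, hc⟩ := heq
  refine ⟨(a.1 : ℤ) - b.1, (a.2 : ℤ) - b.2, -c, ?_, ?_, ?_, ?_⟩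
  · rw [abs_le]; constructor <;> omega
  · rw [abs_le]; constructor <;> omega
  · rintro ⟨h1, h2⟩
    apply hab
    exact Prod.ext (by omega) (by omega)
  · linarith

theorem bad_of (ξ : ℝ) (hξ : ∀ l : Idx1 ⊕ Idx2, rr l ≤ |ξ - xx l|) (q : ℕ) (hq : 0 < q) :
    ((2 : ℝ) ^ 704)⁻¹ ≤ Real.sqrt (q : ℝ) *
          max |(q : ℝ) * ξ - (round ((q : ℝ) * ξ) : ℝ)|
              |(q : ℝ) * Real.sqrt 2 - (round ((q : ℝ) * Real.sqrt 2) : ℝ)| := by
  set p := round ((q : ℝ) * ξ) with hp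
  set r := round ((q : ℝ) * Real.sqrt 2) with hr
  set X := |(q : ℝ) * ξ - (p : ℝ)| with hX
  set Y := |(q : ℝ) * Real.sqrt 2 - (r : ℝ)| with hY
  obtain ⟨A, B, C, hA, hB, hAB, hC⟩ := thue q hq p r
  set H := Nat.sqrt q with hH
  have hH1 : 1 ≤ H := by
    rw [hH]; exact Nat.sqrt_pos.mpr hq
  have h1 := form_lower ξ hξ A B C H hH1 hA hB hAB
  have hqpos : (0 : ℝ) < q := by exact_mod_cast hq
  have hHs : (H : ℝ) ≤ Real.sqrt q := by
    apply Real.le_sqrt_of_sq_le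
    have := Nat.sqrt_le' q
    rw [← hH] at this
    exact_mod_cast this
  have hHq : (H : ℝ) ^ 2 ≤ q := by
    have := Nat.sqrt_le' q
    rw [← hH] at this
    exact_mod_cast this
  have hHpos : (0 : ℝ) < H := by exact_mod_cast hH1
  have hA' : |(A : ℝ)| ≤ H := by rw [← Int.cast_abs]; exact_mod_cast hA
  have hB' : |(B : ℝ)| ≤ H := by rw [← Int.cast_abs]; exact_mod_cast hB
  have hCR : (A : ℝ) * p + B * r + C * q = 0 := by exact_mod_cast hC
  have h2 : |(A : ℝ) * ξ + B * Real.sqrt 2 + C| * q ≤ 2 * H * max X Y := by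
    have e : |(A : ℝ) * ξ + B * Real.sqrt 2 + C| * q =
        |(A : ℝ) * (q * ξ - p) + B * (q * Real.sqrt 2 - r)| := by
      rw [← abs_of_pos hqpos, ← abs_mul, abs_of_pos hqpos]
      congr 1
      linear_combination hCR
    rw [e]
    calc |(A : ℝ) * (q * ξ - p) + B * (q * Real.sqrt 2 - r)|
        ≤ |(A : ℝ) * (q * ξ - p)| + |B * (q * Real.sqrt 2 - r)| := abs_add_le _ _
      _ = |(A : ℝ)| * X + |(B : ℝ)| * Y := by rw [abs_mul, abs_mul]
      _ ≤ H * max X Y + H * max X Y := by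
          gcongr
          · exact le_max_left _ _
          · exact le_max_right _ _
      _ = 2 * H * max X Y := by ring
  have h3 : ((2 : ℝ) ^ 703)⁻¹ ≤ 2 * H * max X Y := by
    calc ((2 : ℝ) ^ 703)⁻¹ ≤ |(A : ℝ) * ξ + B * Real.sqrt 2 + C| * (H : ℝ) ^ 2 := h1
      _ ≤ |(A : ℝ) * ξ + B * Real.sqrt 2 + C| * q := by gcongr
      _ ≤ _ := h2
  have h4 : ((2 : ℝ) ^ 704)⁻¹ = ((2 : ℝ) ^ 703)⁻¹ / 2 := by
    have e : (2 : ℝ) ^ 704 = 2 ^ 703 * 2 := by rw [← pow_succ]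
    rw [e, mul_inv]; rfl
  have hmax : 0 ≤ max X Y := le_max_of_le_left (abs_nonneg _)
  calc ((2 : ℝ) ^ 704)⁻¹ = ((2 : ℝ) ^ 703)⁻¹ / 2 := h4
    _ ≤ (2 * H * max X Y) / 2 := by gcongr
    _ = H * max X Y := by ring
    _ ≤ Real.sqrt q * max X Y := by gcongr

theorem mult_of (ξ : ℝ) (hξ : ∀ l : Idx1 ⊕ Idx2, rr l ≤ |ξ - xx l|) (n q : ℕ) (hq : 0 < q)
    (hqT : q < 2 ^ (32 * 16 ^ (n + 1))) :
    ((2 : ℝ) ^ 1215)⁻¹ ≤ 2 ^ (32 * 16 ^ (n + 1)) * (|(q : ℝ) * ξ - (round ((q : ℝ) * ξ) : ℝ)| *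
              |(q : ℝ) * Real.sqrt 2 - (round ((q : ℝ) * Real.sqrt 2) : ℝ)|) := by
  set p := round ((q : ℝ) * ξ) with hp
  have hqpos : (0 : ℝ) < q := by exact_mod_cast hq
  have h1 := hξ (Sum.inl ⟨(n, q, p), hq, hqT⟩)
  have h2 : rho1 (16 ^ (n + 1)) q ≤ |ξ - (p : ℝ) / q| := h1
  set T := 16 ^ (n + 1) with hT
  have hy := yf_pos q hq
  have h3 : rho1 T q * q ≤ |(q : ℝ) * ξ - p| := by
    have e : |ξ - (p : ℝ) / q| * q = |(q : ℝ) * ξ - p| := by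
      rw [← abs_of_pos hqpos, ← abs_mul, abs_of_pos hqpos]
      congr 1
      field_simp
    rw [← e]
    gcongr
  have h4 : rho1 T q * q * yf q = ((2 : ℝ) ^ 1215)⁻¹ * 2 ^ (16 * (T - lg q)) / 2 ^ (32 * T) := by
    rw [rho1]; field_simp
  have h5 : rho1 T q * q * yf q ≤ |(q : ℝ) * ξ - p| * yf q := by gcongr
  rw [h4, div_le_iff₀ (by positivity)] at h5
  have h6 : (1 : ℝ) ≤ 2 ^ (16 * (T - lg q)) := one_le_pow₀ (by norm_num)
  calc ((2 : ℝ) ^ 1215)⁻¹ = ((2 : ℝ) ^ 1215)⁻¹ * 1 := (mul_one _).symm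
    _ ≤ ((2 : ℝ) ^ 1215)⁻¹ * 2 ^ (16 * (T - lg q)) :=
        mul_le_mul_of_nonneg_left h6 (by positivity)
    _ ≤ |(q : ℝ) * ξ - p| * yf q * 2 ^ (32 * T) := h5
    _ = 2 ^ (32 * T) * (|(q : ℝ) * ξ - p| *
              |(q : ℝ) * Real.sqrt 2 - (round ((q : ℝ) * Real.sqrt 2) : ℝ)|) := by
        rw [yf]; ring

end Pool.Agent.Helper92.Bad
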